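import Pool.Agent.Helper63.ZabUnd.Defs

/-!
The field `ℚ^ab = ℚ(all roots of unity)` inside `ℂ`, its ring of integers `ℤ^ab`, and the basic
facts on units: if `x, y` are units of `ℤ^ab` with `x + y = 2`, then `x` is real or `1 - x` is a
root of unity.
-/

namespace Pool.Agent.Helper63.ZabUnd

open Complex IntermediateField

theorem mem_Zab {z : ℂ} : z ∈ Zab ↔ z ∈ Qab ∧ IsIntegral ℤ z := Iff.rfl

theorem rootsU_integral {z : ℂ} (hz : z ∈ rootsU) : IsIntegral ℤ z := by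
  obtain ⟨n, hn, h⟩ := hz
  exact IsIntegral.of_pow hn (h ▸ isIntegral_one)

theorem rootsU_mem_Zab {z : ℂ} (hz : z ∈ rootsU) : z ∈ Zab :=
  ⟨IntermediateField.subset_adjoin _ _ hz, rootsU_integral hz⟩

theorem rootsU_norm {z : ℂ} (hz : z ∈ rootsU) : ‖z‖ = 1 := by
  obtain ⟨n, hn, h⟩ := hz
  have h1 : ‖z‖ ^ n = 1 := by rw [← norm_pow, h, norm_one]
  exact (pow_eq_one_iff_of_nonneg (norm_nonneg _) hn.ne').1 h1

theorem rootsU_ne_zero {z : ℂ} (hz : z ∈ rootsU) : z ≠ 0 := by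
  intro h
  have := rootsU_norm hz
  simp [h] at this

theorem rootsU_mul {z w : ℂ} (hz : z ∈ rootsU) (hw : w ∈ rootsU) : z * w ∈ rootsU := by
  obtain ⟨n, hn, h⟩ := hz
  obtain ⟨m, hm, h'⟩ := hw
  refine ⟨n * m, Nat.mul_pos hn hm, ?_⟩
  rw [mul_pow, pow_mul, h, one_pow, mul_comm n m, pow_mul, h', one_pow, one_mul]

theorem rootsU_inv {z : ℂ} (hz : z ∈ rootsU) : z⁻¹ ∈ rootsU := by
  obtain ⟨n, hn, h⟩ := hz
  exact ⟨n, hn, by rw [inv_pow, h, inv_one]⟩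

theorem rootsU_pow {z : ℂ} (hz : z ∈ rootsU) (k : ℕ) : z ^ k ∈ rootsU := by
  obtain ⟨n, hn, h⟩ := hz
  exact ⟨n, hn, by rw [← pow_mul, mul_comm, pow_mul, h, one_pow]⟩

theorem rootsU_one : (1 : ℂ) ∈ rootsU := ⟨1, one_pos, one_pow _⟩

theorem rootsU_I : (I : ℂ) ∈ rootsU := ⟨4, by norm_num, by simp⟩

theorem rootsU_neg {z : ℂ} (hz : z ∈ rootsU) : -z ∈ rootsU := by
  have h : (-1 : ℂ) ∈ rootsU := ⟨2, by norm_num, by norm_num⟩
  simpa using rootsU_mul h hz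

theorem rootsU_conj {z : ℂ} (hz : z ∈ rootsU) : (starRingEnd ℂ) z = z⁻¹ := by
  have h := rootsU_norm hz
  rw [Complex.inv_def, Complex.normSq_eq_norm_sq, h]
  simp

/-- In a field generated by roots of unity, complex conjugation commutes with all embeddings. -/
theorem conj_comm {S : Set ℂ} (hS : S ⊆ rootsU) (φ : adjoin ℚ S →+* ℂ) {x : ℂ}
    (hx : x ∈ adjoin ℚ S) :
    ∃ h : (starRingEnd ℂ) x ∈ adjoin ℚ S,
      φ ⟨(starRingEnd ℂ) x, h⟩ = (starRingEnd ℂ) (φ ⟨x, hx⟩) := by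
  induction hx using IntermediateField.adjoin_induction with
  | mem x hx =>
    have h1 : (starRingEnd ℂ) x = x⁻¹ := rootsU_conj (hS hx)
    have h2 : x ∈ adjoin ℚ S := IntermediateField.subset_adjoin _ _ hx
    have h3 : φ ⟨x, h2⟩ ∈ rootsU := by
      obtain ⟨n, hn, h⟩ := hS hx
      refine ⟨n, hn, ?_⟩
      rw [← map_pow, ← map_one φ]
      congr 1
      ext
      simpa using h
    refine ⟨h1 ▸ inv_mem h2, ?_⟩
    rw [rootsU_conj h3, ← map_inv₀]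
    congr 1
    ext
    simpa using h1
  | algebraMap q =>
    have h1 : (starRingEnd ℂ) (algebraMap ℚ ℂ q) = algebraMap ℚ ℂ q := by simp
    refine ⟨by rw [h1]; exact IntermediateField.algebraMap_mem _ _, ?_⟩
    have h2 : φ ⟨algebraMap ℚ ℂ q, IntermediateField.algebraMap_mem _ _⟩ = (q : ℂ) := by
      have : (⟨algebraMap ℚ ℂ q, IntermediateField.algebraMap_mem _ _⟩ : adjoin ℚ S) =
          ((q : ℚ) : adjoin ℚ S) := by
        ext
        simp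
      rw [this, map_ratCast]
    rw [h2]
    have h3 : (⟨(starRingEnd ℂ) (algebraMap ℚ ℂ q), by
        rw [h1]; exact IntermediateField.algebraMap_mem _ _⟩ : adjoin ℚ S) =
        ⟨algebraMap ℚ ℂ q, IntermediateField.algebraMap_mem _ _⟩ := by
      ext
      exact h1
    rw [h3, h2]
    simp
  | add x y hx hy h1 h2 =>
    obtain ⟨h1, h1'⟩ := h1
    obtain ⟨h2, h2'⟩ := h2
    refine ⟨by rw [map_add]; exact add_mem h1 h2, ?_⟩
    have e1 : (⟨(starRingEnd ℂ) (x + y), by rw [map_add]; exact add_mem h1 h2⟩ : adjoin ℚ S) =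
        ⟨(starRingEnd ℂ) x, h1⟩ + ⟨(starRingEnd ℂ) y, h2⟩ := by
      ext
      simp
    have e2 : (⟨x + y, add_mem hx hy⟩ : adjoin ℚ S) = ⟨x, hx⟩ + ⟨y, hy⟩ := rfl
    rw [e1, e2, map_add, map_add, map_add, h1', h2']
  | inv x hx h1 =>
    obtain ⟨h1, h1'⟩ := h1
    refine ⟨by rw [map_inv₀]; exact inv_mem h1, ?_⟩
    have e1 : (⟨(starRingEnd ℂ) x⁻¹, by rw [map_inv₀]; exact inv_mem h1⟩ : adjoin ℚ S) =
        (⟨(starRingEnd ℂ) x, h1⟩)⁻¹ := by
      ext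
      simp
    have e2 : (⟨x⁻¹, inv_mem hx⟩ : adjoin ℚ S) = (⟨x, hx⟩)⁻¹ := rfl
    rw [e1, e2, map_inv₀, map_inv₀, map_inv₀, h1']
  | mul x y hx hy h1 h2 =>
    obtain ⟨h1, h1'⟩ := h1
    obtain ⟨h2, h2'⟩ := h2
    refine ⟨by rw [map_mul]; exact mul_mem h1 h2, ?_⟩
    have e1 : (⟨(starRingEnd ℂ) (x * y), by rw [map_mul]; exact mul_mem h1 h2⟩ : adjoin ℚ S) =
        ⟨(starRingEnd ℂ) x, h1⟩ * ⟨(starRingEnd ℂ) y, h2⟩ := by
      ext
      simp
    have e2 : (⟨x * y, mul_mem hx hy⟩ : adjoin ℚ S) = ⟨x, hx⟩ * ⟨y, hy⟩ := rfl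
    rw [e1, e2, map_mul, map_mul, map_mul, h1', h2']

theorem numberField_adjoin (T : Finset ℂ) (hT : (T : Set ℂ) ⊆ rootsU) :
    NumberField (adjoin ℚ (T : Set ℂ)) := by
  have : FiniteDimensional ℚ (adjoin ℚ (T : Set ℂ)) :=
    IntermediateField.finiteDimensional_adjoin fun x hx =>
      (rootsU_integral (hT hx)).tower_top
  exact { to_charZero := inferInstance, to_finiteDimensional := this }

/-- Kronecker's theorem in the form needed here. -/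
theorem kronecker {T : Finset ℂ} (hT : (T : Set ℂ) ⊆ rootsU) {x : ℂ}
    (hx : x ∈ adjoin ℚ (T : Set ℂ)) (h0 : x ≠ 0) (hi : IsIntegral ℤ x)
    (h : ∀ φ : adjoin ℚ (T : Set ℂ) →+* ℂ, ‖φ ⟨x, hx⟩‖ ≤ 1) : x ∈ rootsU := by
  have := numberField_adjoin T hT
  have hi' : IsIntegral ℤ (⟨x, hx⟩ : adjoin ℚ (T : Set ℂ)) := by
    have := isIntegral_algHom_iff (R := ℤ)
      ((adjoin ℚ (T : Set ℂ)).val.restrictScalars ℤ) (Subtype.val_injective)
      (x := (⟨x, hx⟩ : adjoin ℚ (T : Set ℂ)))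
    exact this.1 (by simpa using hi)
  obtain ⟨n, hn, h1⟩ := NumberField.Embeddings.pow_eq_one_of_norm_le_one
    (adjoin ℚ (T : Set ℂ)) ℂ (x := ⟨x, hx⟩) (fun h => h0 (congrArg Subtype.val h)) hi' h
  refine ⟨n, hn, ?_⟩
  have := congrArg (Subtype.val) h1
  simpa using this

end Pool.Agent.Helper63.ZabUnd
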