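import Mathlib

/-!
Definitions: the ring `ℤ^ab` and an explicit Gödel numbering of the sentences in the language of
rings.
-/

namespace Pool.Agent.Helper63.ZabUnd

open FirstOrder Language

/-- The set of all complex roots of unity. -/
def rootsU : Set ℂ := {z | ∃ n : ℕ, 0 < n ∧ z ^ n = 1}

/-- The field generated over `ℚ` by all complex roots of unity. -/
noncomputable def Qab : IntermediateField ℚ ℂ := IntermediateField.adjoin ℚ rootsU

/-- The ring of algebraic integers of `Qab`. -/
noncomputable def Zab : Subring ℂ where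
  carrier := {z | z ∈ Qab ∧ IsIntegral ℤ z}
  mul_mem' ha hb := ⟨mul_mem ha.1 hb.1, ha.2.mul hb.2⟩
  one_mem' := ⟨one_mem _, isIntegral_one⟩
  add_mem' ha hb := ⟨add_mem ha.1 hb.1, ha.2.add hb.2⟩
  zero_mem' := ⟨zero_mem _, isIntegral_zero⟩
  neg_mem' ha := ⟨neg_mem ha.1, ha.2.neg⟩

/-- The numbers of the function symbols of the language of rings. -/
def codeFunc : ∀ n : ℕ, ringFunc n → ℕ
  | _, .add => 0
  | _, .mul => 1
  | _, .neg => 2
  | _, .zero => 3
  | _, .one => 4

/-- The Gödel number of a term of the language of rings, given the numbers of the variables: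
a variable `x` has number `⟨0, number of x⟩`, and `f(t₁, …, tₙ)` has number
`⟨1, ⟨number of f, number of the list of the numbers of the tᵢ⟩⟩`. -/
def codeTerm {α : Type} (v : α → ℕ) : Language.ring.Term α → ℕ
  | .var a => Nat.pair 0 (v a)
  | .func (l := n) f ts => Nat.pair 1 (Nat.pair (codeFunc n f)
      (Encodable.encode (List.ofFn fun i => codeTerm v (ts i))))

/-- The Gödel number of a formula of the language of rings with free variables `x₀, …, xₙ₋₁`. -/
def codeFormula : ∀ {n : ℕ}, Language.ring.BoundedFormula Empty n → ℕ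
  | _, .falsum => Nat.pair 0 0
  | _, .equal t s => Nat.pair 1 (Nat.pair (codeTerm (Sum.elim Empty.elim Fin.val) t)
      (codeTerm (Sum.elim Empty.elim Fin.val) s))
  | _, .rel R _ => Empty.elim R
  | _, .imp φ ψ => Nat.pair 2 (Nat.pair (codeFormula φ) (codeFormula ψ))
  | _, .all φ => Nat.pair 3 (codeFormula φ)

/-- The Gödel number of a sentence of the language of rings. -/
def godel (φ : Language.ring.Sentence) : ℕ := codeFormula φ

end Pool.Agent.Helper63.ZabUnd
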