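import Pool.Agent.Helper63.ZabUnd.Units

/-!
The first-order definition of `ℤ` in `ℤ^ab`.
-/

namespace Pool.Agent.Helper63.ZabUnd

open Complex IntermediateField Polynomial

section General

variable {R : Type*} [CommRing R]

/-- Second order expansion of integral powers of a unit. -/
theorem zpow_expansion (u : Rˣ) (m : ℤ) :
    ∃ z : R, ((u ^ m : Rˣ) : R) - 1 - m * ((u : R) - 1) = z * ((u : R) - 1) ^ 2 := by
  induction m using Int.induction_on with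
  | zero => exact ⟨0, by simp⟩
  | succ i ih =>
    obtain ⟨z, hz⟩ := ih
    refine ⟨(u : R) * z + i, ?_⟩
    rw [zpow_add_one, Units.val_mul]
    push_cast at hz ⊢
    linear_combination (u : R) * hz
  | pred i ih =>
    obtain ⟨z, hz⟩ := ih
    refine ⟨((u⁻¹ : Rˣ) : R) * (z - (-(i : R) - 1)), ?_⟩
    have hu : ((u⁻¹ : Rˣ) : R) * (u : R) = 1 := Units.inv_mul u
    rw [zpow_sub_one, Units.val_mul]
    push_cast at hz ⊢
    linear_combination ((u⁻¹ : Rˣ) : R) * hz +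
      (1 + (-(i : R) - 1) * ((u : R) - 1)) * hu

/-- Fermat's little theorem in any ring. -/
theorem int_pow_sub {p : ℕ} (hp : p.Prime) (c : ℤ) : (p : R) ∣ (c : R) ^ p - c := by
  have : Fact p.Prime := ⟨hp⟩
  have h1 : ((c ^ p - c : ℤ) : ZMod p) = 0 := by
    push_cast
    rw [ZMod.pow_card, sub_self]
  obtain ⟨k, hk⟩ := (ZMod.intCast_zmod_eq_zero_iff_dvd _ p).1 h1
  refine ⟨k, ?_⟩
  have := congrArg (Int.cast : ℤ → R) hk
  push_cast at this
  exact this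

/-- The value of an integral polynomial. -/
noncomputable def ev (z : R) (G : ℤ[X]) : R := G.eval₂ (Int.castRingHom R) z

theorem map_ev {S : Type*} [CommRing S] (f : R →+* S) (z : R) (G : ℤ[X]) :
    f (ev z G) = ev (f z) G := by
  unfold ev
  rw [Polynomial.hom_eval₂]
  congr 1
  exact RingHom.ext_int _ _

/-- The Frobenius congruence for the values of integral polynomials. -/
theorem dvd_ev_pow {p : ℕ} (hp : p.Prime) (z : R) (G : ℤ[X]) :
    (p : R) ∣ (ev z G) ^ p - ev (z ^ p) G := by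
  unfold ev
  induction G using Polynomial.induction_on' with
  | add f g hf hg =>
    obtain ⟨r, hr⟩ := exists_add_pow_prime_eq hp (f.eval₂ (Int.castRingHom R) z)
      (g.eval₂ (Int.castRingHom R) z)
    rw [eval₂_add, eval₂_add, hr]
    have : (f.eval₂ (Int.castRingHom R) z) ^ p + (g.eval₂ (Int.castRingHom R) z) ^ p +
        p * (f.eval₂ (Int.castRingHom R) z) * (g.eval₂ (Int.castRingHom R) z) * r -
        (f.eval₂ (Int.castRingHom R) (z ^ p) + g.eval₂ (Int.castRingHom R) (z ^ p)) =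
        ((f.eval₂ (Int.castRingHom R) z) ^ p - f.eval₂ (Int.castRingHom R) (z ^ p)) +
        ((g.eval₂ (Int.castRingHom R) z) ^ p - g.eval₂ (Int.castRingHom R) (z ^ p)) +
          p * ((f.eval₂ (Int.castRingHom R) z) * (g.eval₂ (Int.castRingHom R) z) * r) := by ring
    rw [this]
    exact dvd_add (dvd_add hf hg) (dvd_mul_right _ _)
  | monomial n a =>
    rw [eval₂_monomial, eval₂_monomial]
    have : (Int.castRingHom R a * z ^ n) ^ p - Int.castRingHom R a * (z ^ p) ^ n =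
        (((a : ℤ) : R) ^ p - a) * (z ^ p) ^ n := by
      rw [mul_pow, ← pow_mul, ← pow_mul, mul_comm n p]
      simp only [eq_intCast]
      ring
    rw [this]
    exact (int_pow_sub hp a).mul_right _

variable [IsDomain R]

omit [IsDomain R] in
theorem sub_one_dvd_sub_one_pow (z : R) (k : ℕ) : (z - 1) ∣ z ^ k - 1 := by
  simpa using sub_dvd_pow_sub_pow z 1 k

/-- `ζ - 1` divides the rational prime `p`. -/
theorem sub_one_dvd_prime {ζ : R} {p : ℕ} (hp : p.Prime) (hζ : IsPrimitiveRoot ζ p) :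
    (ζ - 1) ∣ (p : R) := by
  obtain ⟨z, -, hz⟩ := IsPrimitiveRoot.self_sub_one_pow_dvd_order (k := 1) hp.one_lt hζ
  exact ⟨z, by rw [hz]; ring⟩

theorem sub_one_sq_dvd_prime {ζ : R} {p : ℕ} (hp : 3 ≤ p) (hζ : IsPrimitiveRoot ζ p) :
    (ζ - 1) ^ 2 ∣ (p : R) := by
  obtain ⟨z, -, hz⟩ := IsPrimitiveRoot.self_sub_one_pow_dvd_order (k := 2) (by omega) hζ
  exact ⟨z, by rw [hz]; ring⟩

omit [IsDomain R] in
/-- If `p` is not a unit then `ζ - 1` is not a unit. -/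
theorem not_isUnit_sub_one {ζ : R} {p : ℕ} (hp : p.Prime) (hp3 : 3 ≤ p)
    (hζ : IsPrimitiveRoot ζ p) (hpu : ¬ IsUnit (p : R)) : ¬ IsUnit (ζ - 1) := by
  intro h
  apply hpu
  obtain ⟨r, hr⟩ := exists_add_pow_prime_eq hp ζ (-1 : R)
  have hodd : Odd p := hp.odd_of_ne_two (by omega)
  rw [hζ.pow_eq_one, hodd.neg_one_pow, ← sub_eq_add_neg] at hr
  have h1 : (p : R) ∣ (ζ - 1) ^ p := ⟨ζ * (-1) * r, by rw [hr]; ring⟩
  exact isUnit_of_dvd_unit h1 (h.pow p)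

/-- If a multiple of `ζ - 1` is an integer prime to `p`, then `ζ - 1` is a unit. -/
theorem isUnit_of_dvd_int {ζ : R} {p : ℕ} (hp : p.Prime) (hζ : IsPrimitiveRoot ζ p) {b : ℤ}
    (hb : ¬ (p : ℤ) ∣ b) (h : (ζ - 1) ∣ (b : R)) : IsUnit (ζ - 1) := by
  have h1 := sub_one_dvd_prime hp hζ
  have h3 : IsCoprime (p : ℤ) b := (Prime.coprime_iff_not_dvd (Nat.prime_iff_prime_int.1 hp)).2 hb
  obtain ⟨s, t, hst⟩ := h3
  apply isUnit_of_dvd_one
  have h4 : ((s : R) * (p : R) + (t : R) * (b : R)) = 1 := by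
    have := congrArg (Int.cast : ℤ → R) hst
    push_cast at this
    exact this
  have h5 : (ζ - 1) ∣ ((s : R) * (p : R) + (t : R) * (b : R)) :=
    dvd_add (h1.mul_left _) (h.mul_left _)
  rwa [h4] at h5

/-- A root of unity congruent to `1` modulo `ζ - 1` has `p`-power order. -/
theorem exists_pow_eq_one {ζ y : R} {p : ℕ} (hp : p.Prime) (hp3 : 3 ≤ p)
    (hζ : IsPrimitiveRoot ζ p) (hpu : ¬ IsUnit (p : R)) {N : ℕ} (hN : 0 < N) (hy : y ^ N = 1)
    (h : (ζ - 1) ∣ y - 1) : ∃ k : ℕ, y ^ p ^ k = 1 := by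
  obtain ⟨k, b, hb, hNb⟩ := Nat.exists_eq_pow_mul_and_not_dvd hN.ne' p hp.ne_one
  refine ⟨k, ?_⟩
  by_contra hne
  have h1 : (y ^ p ^ k) ^ b = 1 := by rw [← pow_mul, ← hNb, hy]
  have h2 : (ζ - 1) ∣ y ^ p ^ k - 1 := h.trans (sub_one_dvd_sub_one_pow y _)
  have h3 : (ζ - 1) ∣ 1 - y ^ p ^ k := by
    exact (dvd_sub_comm).1 h2
  have h4 := h3.trans (one_sub_dvd hne h1)
  exact not_isUnit_sub_one hp hp3 hζ hpu
    (isUnit_of_dvd_int hp hζ (b := (b : ℤ)) (by exact_mod_cast hb) (by exact_mod_cast h4))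

/-- A root of unity congruent to `1` modulo `ζ - 1` whose difference with `1` ... has order
dividing `p`, provided it is congruent to `1` modulo `ζ - 1`. -/
theorem pow_prime_eq_one {ζ y : R} {p : ℕ} (hp : p.Prime) (hp3 : 3 ≤ p)
    (hζ : IsPrimitiveRoot ζ p) (hpu : ¬ IsUnit (p : R)) (h : (ζ - 1) ∣ y - 1) (k : ℕ)
    (hk : y ^ p ^ k = 1) : y ^ p = 1 := by
  by_contra hne
  -- take the least exponent
  classical
  have hex : ∃ k : ℕ, y ^ p ^ k = 1 := ⟨k, hk⟩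
  obtain ⟨m, hm1, hm2⟩ : ∃ m, Nat.find hex = m ∧ y ^ p ^ m = 1 := ⟨_, rfl, Nat.find_spec hex⟩
  have hm0 : m ≠ 0 := by
    intro h0
    rw [h0, pow_zero, pow_one] at hm2
    exact hne (by rw [hm2, one_pow])
  have hm1' : m ≠ 1 := by
    intro h0
    rw [h0, pow_one] at hm2
    exact hne hm2
  obtain ⟨j, rfl⟩ : ∃ j, m = j + 2 := ⟨m - 2, by omega⟩
  set y1 := y ^ p ^ (j + 1) with hy1
  have h1 : y1 ^ p = 1 := by rw [hy1, ← pow_mul, ← pow_succ, hm2]
  have h2 : y1 ≠ 1 := by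
    intro h0
    have := Nat.find_min' hex h0
    omega
  have hF : Fact p.Prime := ⟨hp⟩
  have hNZ : NeZero p := ⟨hp.ne_zero⟩
  have hprim : IsPrimitiveRoot y1 p := IsPrimitiveRoot.iff_orderOf.2 (orderOf_eq_prime h1 h2)
  -- expansion
  have hodd : Odd p := hp.odd_of_ne_two (by omega)
  obtain ⟨r, hr⟩ := exists_add_pow_prime_pow_eq hp y (-1 : R) (j + 1)
  rw [(hodd.pow).neg_one_pow, ← hy1, ← sub_eq_add_neg] at hr
  have h3 : (ζ - 1) ^ 2 ∣ (y - 1) ^ p ^ (j + 1) := by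
    have h4 : (ζ - 1) ^ p ^ (j + 1) ∣ (y - 1) ^ p ^ (j + 1) := pow_dvd_pow_of_dvd h _
    refine (pow_dvd_pow _ ?_).trans h4
    calc 2 ≤ p := by omega
      _ = p ^ 1 := (pow_one p).symm
      _ ≤ p ^ (j + 1) := Nat.pow_le_pow_right hp.pos (by omega)
  have h4 : (ζ - 1) ^ 2 ∣ y1 - 1 := by
    have h5 : y1 - 1 = (y - 1) ^ p ^ (j + 1) - p * (y * (-1) * r) := by
      rw [hr]
      ring
    rw [h5]
    exact dvd_sub h3 ((sub_one_sq_dvd_prime hp3 hζ).mul_right _)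
  obtain ⟨i, -, hi⟩ := hprim.eq_pow_of_pow_eq_one hζ.pow_eq_one
  have h6 : y1 - 1 ∣ ζ - 1 := by
    rw [← hi]
    exact sub_one_dvd_sub_one_pow y1 i
  have h7 : (ζ - 1) * (ζ - 1) ∣ (ζ - 1) * 1 := by
    rw [mul_one, ← sq]
    exact h4.trans h6
  have hne0 : ζ - 1 ≠ 0 := sub_ne_zero.2 (hζ.ne_one hp.one_lt)
  have h8 := (mul_dvd_mul_iff_left hne0).1 h7
  exact not_isUnit_sub_one hp hp3 hζ hpu (isUnit_of_dvd_one h8)

/-- The local step: if `y` is a root of unity and `y - 1 - x (ζ - 1)` is divisible by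
`(ζ - 1) ^ 2`, where `ζ` is a primitive `p`-th root of unity, then `x` is congruent to a natural
number modulo `ζ - 1`. -/
theorem exists_nat_sub {ζ y x z : R} {p : ℕ} (hp : p.Prime) (hp3 : 3 ≤ p)
    (hζ : IsPrimitiveRoot ζ p) (hpu : ¬ IsUnit (p : R)) {N : ℕ} (hN : 0 < N) (hy : y ^ N = 1)
    (h : y - 1 - x * (ζ - 1) = z * (ζ - 1) ^ 2) : ∃ i : ℕ, (ζ - 1) ∣ x - i := by
  have h1 : (ζ - 1) ∣ y - 1 := ⟨x + z * (ζ - 1), by linear_combination h⟩
  obtain ⟨k, hk⟩ := exists_pow_eq_one hp hp3 hζ hpu hN hy h1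
  have h2 := pow_prime_eq_one hp hp3 hζ hpu h1 k hk
  have : NeZero p := ⟨hp.ne_zero⟩
  obtain ⟨i, -, hi⟩ := hζ.eq_pow_of_pow_eq_one h2
  refine ⟨i, ?_⟩
  let u : Rˣ := (hζ.isUnit hp.ne_zero).unit
  have hu : (u : R) = ζ := rfl
  obtain ⟨w, hw⟩ := zpow_expansion u (i : ℤ)
  rw [zpow_natCast, Units.val_pow_eq_pow_val, hu, hi] at hw
  push_cast at hw
  have hne0 : ζ - 1 ≠ 0 := sub_ne_zero.2 (hζ.ne_one hp.one_lt)
  refine ⟨w - z, mul_left_cancel₀ hne0 ?_⟩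
  linear_combination hw - h

theorem dvd_pow_sub_self {ζ x : R} {p i : ℕ} (hp : p.Prime)
    (hζ : IsPrimitiveRoot ζ p) (h : (ζ - 1) ∣ x - i) : (ζ - 1) ∣ x ^ p - x := by
  have h1 : (ζ - 1) ∣ x ^ p - (i : R) ^ p := h.trans (sub_dvd_pow_sub_pow _ _ _)
  have h2 : (ζ - 1) ∣ (i : R) ^ p - i := by
    have := int_pow_sub (R := R) hp (i : ℤ)
    push_cast at this
    exact (sub_one_dvd_prime hp hζ).trans this
  have h3 : x ^ p - x = (x ^ p - (i : R) ^ p) + ((i : R) ^ p - i) - (x - i) := by ring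
  rw [h3]
  exact dvd_sub (dvd_add h1 h2) h

/-- The congruences `x ^ p ≡ x` modulo `ζ_p - 1` make the Galois conjugates of `x` agree. -/
theorem conj_of_frobenius (hdvd : ∀ δ : R, δ ≠ 0 → ∃ E : ℤ, E ≠ 0 ∧ δ ∣ (E : R))
    (hunit : ∀ p : ℕ, p.Prime → ¬ IsUnit (p : R))
    (hprim : ∀ p : ℕ, p ≠ 0 → ∃ l : R, IsPrimitiveRoot l p) (x : R)
    (h : ∀ p : ℕ, p.Prime → 3 ≤ p → ∀ ζ : R, IsPrimitiveRoot ζ p → (ζ - 1) ∣ x ^ p - x)
    {n : ℕ} (hn : 0 < n) {z : R} (hz : IsPrimitiveRoot z n) {D : ℤ} {G : ℤ[X]}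
    (hG : (D : R) * x = ev z G) (a : ℕ) (ha : a.Coprime n) :
    ev z G = ev (z ^ a) G := by
  have hNZ : NeZero n := ⟨hn.ne'⟩
  by_contra hne
  obtain ⟨E, hE0, hE⟩ := hdvd _ (sub_ne_zero.2 hne)
  have hau : IsUnit (a : ZMod n) := (ZMod.isUnit_iff_coprime a n).2 ha
  obtain ⟨p, hpgt, hp, hpa⟩ := Nat.forall_exists_prime_gt_and_eq_mod hau (E.natAbs + 3)
  have hp3 : 3 ≤ p := by omega
  obtain ⟨l, hl⟩ := hprim p hp.ne_zero
  have h1 := h p hp hp3 l hl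
  have h2 : z ^ p = z ^ a := by
    have h3 : p ≡ a [MOD n] := (ZMod.natCast_eq_natCast_iff _ _ _).1 hpa
    rw [pow_eq_pow_mod p hz.pow_eq_one, pow_eq_pow_mod a hz.pow_eq_one, h3]
  have h3 : (l - 1) ∣ ev z G - ev (z ^ a) G := by
    have e1 : (l - 1) ∣ (ev z G) ^ p - ev (z ^ p) G :=
      (sub_one_dvd_prime hp hl).trans (dvd_ev_pow hp z G)
    have e2 : (l - 1) ∣ (D : R) ^ p - D := (sub_one_dvd_prime hp hl).trans (int_pow_sub hp D)
    rw [h2] at e1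
    have e3 : ev z G - ev (z ^ a) G =
        ((ev z G) ^ p - ev (z ^ a) G) - ((D : R) ^ p - D) * x ^ p
          - D * (x ^ p - x) := by
      rw [← hG]
      ring
    rw [e3]
    exact dvd_sub (dvd_sub e1 (e2.mul_right _)) (h1.mul_left _)
  have h4 : ¬ (p : ℤ) ∣ E := by
    intro h5
    have h6 := Int.natAbs_dvd_natAbs.2 h5
    rw [Int.natAbs_natCast] at h6
    have := Nat.le_of_dvd (Int.natAbs_pos.2 hE0) h6
    omega
  exact not_isUnit_sub_one hp hp3 hl (hunit p hp)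
    (isUnit_of_dvd_int hp hl h4 (h3.trans hE))

end General

end Pool.Agent.Helper63.ZabUnd
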