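import Pool.Agent.Helper63.ZabUnd.Ints

/-!
The first-order definition of `ℤ` in `ℤ^ab`: the global step.
-/

namespace Pool.Agent.Helper63.ZabUnd

open Complex IntermediateField Polynomial

theorem exists_cyclotomic {x : ℂ} (hx : x ∈ Qab) :
    ∃ n : ℕ, 0 < n ∧ ∃ ζ : ℂ, IsPrimitiveRoot ζ n ∧ x ∈ ℚ⟮ζ⟯ := by
  obtain ⟨T, hT, hxT⟩ := exists_finset hx
  have h1 : ∀ t ∈ T, ∃ n : ℕ, 0 < n ∧ t ^ n = 1 := fun t ht => hT ht
  choose! N hN0 hN using h1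
  have hn : 0 < ∏ t ∈ T, N t := Finset.prod_pos fun t ht => hN0 t ht
  refine ⟨∏ t ∈ T, N t, hn, _, Complex.isPrimitiveRoot_exp _ hn.ne', ?_⟩
  have hprim := Complex.isPrimitiveRoot_exp (∏ t ∈ T, N t) hn.ne'
  have : NeZero (∏ t ∈ T, N t) := ⟨hn.ne'⟩
  have h2 : adjoin ℚ (T : Set ℂ) ≤
      ℚ⟮Complex.exp (2 * Real.pi * I / ((∏ t ∈ T, N t : ℕ) : ℂ))⟯ := by
    rw [IntermediateField.adjoin_le_iff]
    intro t ht
    obtain ⟨c, hc⟩ := Finset.dvd_prod_of_mem N (Finset.mem_coe.1 ht)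
    have h3 : t ^ (∏ t ∈ T, N t) = 1 := by
      rw [hc, pow_mul, hN t (Finset.mem_coe.1 ht), one_pow]
    obtain ⟨i, -, hi⟩ := hprim.eq_pow_of_pow_eq_one h3
    rw [← hi]
    exact pow_mem (IntermediateField.mem_adjoin_simple_self _ _) _
  exact h2 hxT

theorem exists_int_poly {ζ x : ℂ} (hζ : IsIntegral ℤ ζ) (hx : x ∈ ℚ⟮ζ⟯) :
    ∃ D : ℤ, D ≠ 0 ∧ ∃ G : ℤ[X], (D : ℂ) * x = ev ζ G := by
  have h1 : x ∈ ℚ⟮ζ⟯.toSubalgebra := hx
  rw [IntermediateField.adjoin_simple_toSubalgebra_of_isAlgebraic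
    hζ.tower_top.isAlgebraic, Algebra.adjoin_singleton_eq_range_aeval] at h1
  obtain ⟨P, hP⟩ := h1
  obtain ⟨b, hb, hbP⟩ := IsLocalization.integerNormalization_spec (nonZeroDivisors ℤ) P
  refine ⟨b, nonZeroDivisors.ne_zero hb, IsLocalization.integerNormalization (nonZeroDivisors ℤ) P,
    ?_⟩
  have h2 := congrArg (aeval ζ) hbP
  rw [aeval_map_algebraMap] at h2
  have h3 : ev ζ (IsLocalization.integerNormalization (nonZeroDivisors ℤ) P) =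
      aeval ζ (IsLocalization.integerNormalization (nonZeroDivisors ℤ) P) := by
    rw [aeval_def, algebraMap_int_eq]
    rfl
  rw [h3, h2, map_zsmul, zsmul_eq_mul]
  congr 1
  exact hP.symm

theorem coe_ev (z : Zab) (G : ℤ[X]) : ((ev z G : Zab) : ℂ) = ev (z : ℂ) G :=
  map_ev Zab.subtype z G

theorem isIntegral_Zab (x : Zab) : IsIntegral ℤ x := by
  have := isIntegral_algHom_iff (R := ℤ) (Zab.subtype.toIntAlgHom) Subtype.val_injective (x := x)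
  exact this.1 x.2.2

/-- Every nonzero element of `ℤ^ab` divides a nonzero rational integer. -/
theorem exists_dvd_int {δ : Zab} (h : δ ≠ 0) : ∃ E : ℤ, E ≠ 0 ∧ δ ∣ (E : Zab) := by
  have h1 := Ideal.comap_ne_bot_of_integral_mem (R := ℤ) (I := Ideal.span {δ}) h
    (Ideal.mem_span_singleton_self δ) (isIntegral_Zab δ)
  obtain ⟨E, hE, hE0⟩ := Submodule.exists_mem_ne_zero_of_ne_bot h1
  refine ⟨E, hE0, ?_⟩
  rw [Ideal.mem_comap, Ideal.mem_span_singleton] at hE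
  simpa using hE

theorem int_of_rat {x : Zab} {q : ℚ} (h : (x : ℂ) = q) : ∃ m : ℤ, x = m := by
  have h1 : IsIntegral ℤ (algebraMap ℚ ℂ q) := by
    have := x.2.2
    rw [h] at this
    simpa using this
  have h2 : IsIntegral ℤ q := (isIntegral_algebraMap_iff (algebraMap ℚ ℂ).injective).1 h1
  obtain ⟨m, hm⟩ := IsIntegrallyClosed.isIntegral_iff.1 h2
  refine ⟨m, ?_⟩
  ext
  rw [h, ← hm]
  simp

/-- A prime number is not a unit of `ℤ^ab`. -/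
theorem prime_not_isUnit {p : ℕ} (hp : p.Prime) : ¬ IsUnit (p : Zab) := by
  intro h
  obtain ⟨w, hw⟩ := isUnit_iff_exists_inv.1 h
  have h1 : (w : ℂ) = ((1 / p : ℚ) : ℂ) := by
    have h2 := congrArg Subtype.val hw
    have h3 : (p : ℂ) * (w : ℂ) = 1 := by simpa using h2
    have hp0 : (p : ℂ) ≠ 0 := Nat.cast_ne_zero.2 hp.ne_zero
    push_cast
    field_simp
    linear_combination h3
  obtain ⟨m, hm⟩ := int_of_rat h1
  rw [hm] at hw
  have h4 : ((p * m : ℤ) : Zab) = ((1 : ℤ) : Zab) := by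
    push_cast
    exact hw
  have h5 : (p : ℤ) * m = 1 := Int.cast_injective h4
  have h6 : (p : ℤ) ∣ 1 := ⟨m, h5.symm⟩
  have h7 := Int.natCast_dvd_natCast.1 (by simpa using h6 : (p : ℤ) ∣ ((1 : ℕ) : ℤ))
  exact hp.one_lt.ne' (Nat.dvd_one.1 h7)

theorem exists_primitive {p : ℕ} (hp : p ≠ 0) : ∃ l : Zab, IsPrimitiveRoot l p := by
  have hprim := Complex.isPrimitiveRoot_exp p hp
  exact ⟨⟨_, rootsU_mem_Zab ⟨p, Nat.pos_of_ne_zero hp, hprim.pow_eq_one⟩⟩,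
    IsPrimitiveRoot.of_map_of_injective (f := Zab.subtype) hprim Subtype.val_injective⟩

/-- An element of a cyclotomic field whose Galois conjugates agree is rational. -/
theorem rat_of_conj {n : ℕ} (hn : 0 < n) {ζ : ℂ} (hζ : IsPrimitiveRoot ζ n) {x : ℂ}
    (hx : x ∈ ℚ⟮ζ⟯) {D : ℤ} (hD : D ≠ 0) {G : ℤ[X]} (hG : (D : ℂ) * x = ev ζ G)
    (key : ∀ a : ℕ, a.Coprime n → ev ζ G = ev (ζ ^ a) G) : ∃ q : ℚ, x = q := by
  have hNZ : NeZero n := ⟨hn.ne'⟩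
  have hζU : ζ ∈ rootsU := ⟨n, hn, hζ.pow_eq_one⟩
  have hcyc : IsCyclotomicExtension {n} ℚ ℚ⟮ζ⟯ :=
    (IntermediateField.isCyclotomicExtension_singleton_iff_eq_adjoin n ℚ ℂ _ hζ).2 rfl
  have hgal : IsGalois ℚ ℚ⟮ζ⟯ := IsCyclotomicExtension.isGalois {n} ℚ _
  have hfin : FiniteDimensional ℚ ℚ⟮ζ⟯ :=
    IntermediateField.adjoin.finiteDimensional (rootsU_integral hζU).tower_top
  have hx' : (⟨x, hx⟩ : ℚ⟮ζ⟯) ∈ (⊥ : IntermediateField ℚ ℚ⟮ζ⟯) := by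
    rw [IsGalois.mem_bot_iff_fixed]
    intro f
    have hζ' : IsPrimitiveRoot (AdjoinSimple.gen ℚ ζ) n :=
      IsPrimitiveRoot.coe_submonoidClass_iff.1 hζ
    obtain ⟨a, -, ha, hfa⟩ := hζ'.isPrimitiveRoot_iff.1
      (hζ'.map_of_injective (f := f) f.injective)
    have e1 : ∀ w : ℚ⟮ζ⟯, ((ev w G : ℚ⟮ζ⟯) : ℂ) = ev (w : ℂ) G := fun w =>
      map_ev (algebraMap ℚ⟮ζ⟯ ℂ) w G
    have e2 : (D : ℚ⟮ζ⟯) * ⟨x, hx⟩ = ev (AdjoinSimple.gen ℚ ζ) G := by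
      ext
      rw [e1]
      simpa using hG
    have e3 : ev (AdjoinSimple.gen ℚ ζ) G = ev (AdjoinSimple.gen ℚ ζ ^ a) G := by
      ext
      rw [e1, e1]
      simpa using key a ha
    have e4 : f (ev (AdjoinSimple.gen ℚ ζ) G) = ev (AdjoinSimple.gen ℚ ζ) G := by
      have := map_ev (f : ℚ⟮ζ⟯ →+* ℚ⟮ζ⟯) (AdjoinSimple.gen ℚ ζ) G
      have h5 : (f : ℚ⟮ζ⟯ →+* ℚ⟮ζ⟯) (AdjoinSimple.gen ℚ ζ) =
          AdjoinSimple.gen ℚ ζ ^ a := hfa.symm
      rw [h5, ← e3] at this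
      exact this
    rw [← e2, map_mul, map_intCast] at e4
    exact mul_left_cancel₀ (Int.cast_ne_zero.2 hD) e4
  obtain ⟨q, hq⟩ := IntermediateField.mem_bot.1 hx'
  refine ⟨q, ?_⟩
  have := congrArg Subtype.val hq
  simpa using this.symm

/-- The congruences `x ^ p ≡ x` modulo `ζ_p - 1` for all odd primes force `x ∈ ℤ`. -/
theorem int_of_frobenius (x : Zab)
    (h : ∀ p : ℕ, p.Prime → 3 ≤ p → ∀ ζ : Zab, IsPrimitiveRoot ζ p → (ζ - 1) ∣ x ^ p - x) :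
    ∃ m : ℤ, x = m := by
  obtain ⟨n, hn, ζ, hζ, hx⟩ := exists_cyclotomic x.2.1
  have hζU : ζ ∈ rootsU := ⟨n, hn, hζ.pow_eq_one⟩
  obtain ⟨D, hD, G, hG⟩ := exists_int_poly (rootsU_integral hζU) hx
  have hz : IsPrimitiveRoot (⟨ζ, rootsU_mem_Zab hζU⟩ : Zab) n :=
    IsPrimitiveRoot.of_map_of_injective (f := Zab.subtype) hζ Subtype.val_injective
  have hG' : (D : Zab) * x = ev (⟨ζ, rootsU_mem_Zab hζU⟩ : Zab) G := by
    ext
    rw [coe_ev]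
    simpa using hG
  obtain ⟨q, hq⟩ := rat_of_conj hn hζ hx hD hG fun a ha => by
    have := congrArg Subtype.val (conj_of_frobenius (fun δ hδ => exists_dvd_int hδ)
      (fun p hp => prime_not_isUnit hp) (fun p hp => exists_primitive hp) x h hn hz hG' a ha)
    rw [coe_ev, coe_ev] at this
    simpa using this
  exact int_of_rat hq

/-- The first-order definition of `ℤ` in `ℤ^ab` over the set of roots of unity. -/
theorem mem_int_iff (x : Zab) : (∃ m : ℤ, x = m) ↔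
    ∀ ζ : Zab, (ζ : ℂ) ∈ rootsU → ∃ y z : Zab, (y : ℂ) ∈ rootsU ∧
      y - 1 - x * (ζ - 1) = z * (ζ - 1) ^ 2 := by
  constructor
  · rintro ⟨m, rfl⟩ ζ hζ
    have hζ0 : (ζ : ℂ) ≠ 0 := rootsU_ne_zero hζ
    let u : Zabˣ :=
      ⟨ζ, ⟨(ζ : ℂ)⁻¹, rootsU_mem_Zab (rootsU_inv hζ)⟩, Subtype.ext (mul_inv_cancel₀ hζ0),
        Subtype.ext (inv_mul_cancel₀ hζ0)⟩
    obtain ⟨z, hz⟩ := zpow_expansion u m
    refine ⟨((u ^ m : Zabˣ) : Zab), z, ?_, hz⟩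
    obtain ⟨n, hn, h⟩ := hζ
    refine ⟨n, hn, ?_⟩
    have h1 : u ^ n = 1 := by
      ext
      simpa using h
    have h2 : (u ^ m) ^ n = 1 := by
      rw [← zpow_natCast, ← zpow_mul, mul_comm, zpow_mul, zpow_natCast, h1, one_zpow]
    have h3 := congrArg (fun v : Zabˣ => ((v : Zab) : ℂ)) h2
    simpa using h3
  · intro h
    apply int_of_frobenius
    intro p hp hp3 ζ hζ
    have hζU : (ζ : ℂ) ∈ rootsU :=
      ⟨p, hp.pos, by simpa using congrArg Subtype.val hζ.pow_eq_one⟩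
    obtain ⟨y, z, ⟨N, hN, hy⟩, hz⟩ := h ζ hζU
    have hy' : y ^ N = 1 := by
      ext
      simpa using hy
    obtain ⟨i, hi⟩ := exists_nat_sub hp hp3 hζ (prime_not_isUnit hp) hN hy' hz
    exact dvd_pow_sub_self hp hζ hi

end Pool.Agent.Helper63.ZabUnd
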