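import Pool.Agent.Helper63.ZabUnd.Defs

/-!
First-order definability in rings: closure properties of definable functions and predicates,
an explicit Gödel numbering of the sentences in the language of rings, and numerals.
-/

namespace Pool.Agent.Helper63.ZabUnd

open FirstOrder Language

section Definability

variable {M : Type*} [CommRing M] [FirstOrder.Ring.CompatibleRing M]
variable {α β : Type*}

/-- `f` is given by a term of the language of rings. -/
def Tm (f : (α → M) → M) : Prop := ∃ t : Language.ring.Term α, ∀ v, t.realize v = f v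

/-- `P` is given by a first-order formula of the language of rings without parameters. -/
def Dfn (P : (α → M) → Prop) : Prop := ∃ φ : Language.ring.Formula α, ∀ v, φ.Realize v ↔ P v

namespace Tm

theorem var (a : α) : Tm (fun v : α → M => v a) := ⟨Term.var a, fun _ => rfl⟩

theorem add {f g : (α → M) → M} (hf : Tm f) (hg : Tm g) : Tm (fun v => f v + g v) := by
  obtain ⟨t, ht⟩ := hf
  obtain ⟨s, hs⟩ := hg
  exact ⟨t + s, fun v => by rw [FirstOrder.Ring.realize_add, ht, hs]⟩

theorem mul {f g : (α → M) → M} (hf : Tm f) (hg : Tm g) : Tm (fun v => f v * g v) := by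
  obtain ⟨t, ht⟩ := hf
  obtain ⟨s, hs⟩ := hg
  exact ⟨t * s, fun v => by rw [FirstOrder.Ring.realize_mul, ht, hs]⟩

theorem neg {f : (α → M) → M} (hf : Tm f) : Tm (fun v => -f v) := by
  obtain ⟨t, ht⟩ := hf
  exact ⟨-t, fun v => by rw [FirstOrder.Ring.realize_neg, ht]⟩

theorem zero : Tm (fun _ : α → M => (0 : M)) := ⟨0, fun v => FirstOrder.Ring.realize_zero v⟩

theorem one : Tm (fun _ : α → M => (1 : M)) := ⟨1, fun v => FirstOrder.Ring.realize_one v⟩

theorem sub {f g : (α → M) → M} (hf : Tm f) (hg : Tm g) : Tm (fun v => f v - g v) := by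
  simpa only [sub_eq_add_neg] using hf.add hg.neg

theorem pow {f : (α → M) → M} (hf : Tm f) (n : ℕ) : Tm (fun v => f v ^ n) := by
  induction n with
  | zero => simpa only [pow_zero] using one
  | succ n ih => simpa only [pow_succ] using ih.mul hf

theorem natCast (n : ℕ) : Tm (fun _ : α → M => (n : M)) := by
  induction n with
  | zero => simpa only [Nat.cast_zero] using zero
  | succ n ih => simpa only [Nat.cast_succ] using ih.add one

theorem intCast (m : ℤ) : Tm (fun _ : α → M => (m : M)) := by
  induction m using Int.induction_on with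
  | zero => simpa only [Int.cast_zero] using zero
  | succ i ih => simpa only [Int.cast_add, Int.cast_one] using ih.add one
  | pred i ih => simpa only [Int.cast_sub, Int.cast_one] using ih.sub one

theorem lift (g : α → β) {f : (α → M) → M} (hf : Tm f) :
    Tm (fun v : β → M => f (fun a => v (g a))) := by
  obtain ⟨t, ht⟩ := hf
  exact ⟨t.relabel g, fun v => by rw [Term.realize_relabel, ht]; rfl⟩

theorem mvPoly {σ : Type*} (p : MvPolynomial σ ℤ) (g : σ → (α → M) → M) (hg : ∀ i, Tm (g i)) :
    Tm (fun v => p.eval₂ (Int.castRingHom M) (fun i => g i v)) := by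
  induction p using MvPolynomial.induction_on with
  | C a =>
    have h := intCast (M := M) (α := α) a
    have h2 : ∀ v : α → M, MvPolynomial.eval₂ (Int.castRingHom M) (fun i => g i v)
        (MvPolynomial.C a) = (a : M) := fun v => by rw [MvPolynomial.eval₂_C, eq_intCast]
    exact (funext h2 : (fun v => MvPolynomial.eval₂ (Int.castRingHom M) (fun i => g i v)
        (MvPolynomial.C a)) = fun _ => (a : M)) ▸ h
  | add p q hp hq => simpa only [MvPolynomial.eval₂_add] using hp.add hq
  | mul_X p i hp => simpa only [MvPolynomial.eval₂_mul, MvPolynomial.eval₂_X] using hp.mul (hg i)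

end Tm

namespace Dfn

theorem congr {P Q : (α → M) → Prop} (hP : Dfn P) (h : ∀ v, P v ↔ Q v) : Dfn Q := by
  obtain ⟨φ, hφ⟩ := hP
  exact ⟨φ, fun v => (hφ v).trans (h v)⟩

theorem eq {f g : (α → M) → M} (hf : Tm f) (hg : Tm g) : Dfn (fun v => f v = g v) := by
  obtain ⟨t, ht⟩ := hf
  obtain ⟨s, hs⟩ := hg
  exact ⟨t.equal s, fun v => by rw [Formula.realize_equal, ht, hs]⟩

theorem not {P : (α → M) → Prop} (hP : Dfn P) : Dfn (fun v => ¬ P v) := by
  obtain ⟨φ, hφ⟩ := hP
  exact ⟨φ.not, fun v => by rw [Formula.realize_not, hφ]⟩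

theorem ne {f g : (α → M) → M} (hf : Tm f) (hg : Tm g) : Dfn (fun v => f v ≠ g v) :=
  (Dfn.eq hf hg).not

theorem and {P Q : (α → M) → Prop} (hP : Dfn P) (hQ : Dfn Q) : Dfn (fun v => P v ∧ Q v) := by
  obtain ⟨φ, hφ⟩ := hP
  obtain ⟨ψ, hψ⟩ := hQ
  exact ⟨φ ⊓ ψ, fun v => by rw [Formula.realize_inf, hφ, hψ]⟩

theorem imp {P Q : (α → M) → Prop} (hP : Dfn P) (hQ : Dfn Q) : Dfn (fun v => P v → Q v) := by
  obtain ⟨φ, hφ⟩ := hP
  obtain ⟨ψ, hψ⟩ := hQ
  exact ⟨φ.imp ψ, fun v => by rw [Formula.realize_imp, hφ, hψ]⟩

/-- Existential quantification over finitely many variables. -/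
theorem exs [Finite β] {P : (α ⊕ β → M) → Prop} (hP : Dfn P) :
    Dfn (fun v : α → M => ∃ w : β → M, P (Sum.elim v w)) := by
  obtain ⟨φ, hφ⟩ := hP
  refine ⟨φ.iExs β, fun v => ?_⟩
  rw [Formula.realize_iExs]
  exact exists_congr fun w => hφ _

/-- Existential quantification over one variable. -/
theorem ex {P : (α → M) → M → Prop}
    (hP : Dfn (fun u : α ⊕ Unit → M => P (fun a => u (Sum.inl a)) (u (Sum.inr ())))) :
    Dfn (fun v : α → M => ∃ x : M, P v x) :=
  hP.exs.congr fun _ => ⟨fun ⟨w, hw⟩ => ⟨w (), hw⟩, fun ⟨x, hx⟩ => ⟨fun _ => x, hx⟩⟩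

theorem all {P : (α → M) → M → Prop}
    (hP : Dfn (fun u : α ⊕ Unit → M => P (fun a => u (Sum.inl a)) (u (Sum.inr ())))) :
    Dfn (fun v : α → M => ∀ x : M, P v x) :=
  (Dfn.ex (P := fun v x => ¬ P v x) hP.not).not.congr fun _ => not_exists_not

/-- Finite conjunctions. -/
theorem forall_fin {ι : Type*} [Finite ι] {P : ι → (α → M) → Prop} (h : ∀ i, Dfn (P i)) :
    Dfn (fun v => ∀ i, P i v) := by
  choose φ hφ using h
  refine ⟨Formula.iInf φ, fun v => ?_⟩
  rw [Formula.realize_iInf]
  exact forall_congr' fun i => hφ i v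

end Dfn

end Definability

section Goedel

theorem codeFunc_injective {n m : ℕ} (f : ringFunc n) (g : ringFunc m)
    (h : codeFunc n f = codeFunc m g) : n = m ∧ HEq f g := by
  cases f <;> cases g <;> simp [codeFunc] at h ⊢

theorem codeTerm_injective {α : Type} {v : α → ℕ} (hv : Function.Injective v) :
    Function.Injective (codeTerm v) := by
  intro t
  induction t with
  | var a =>
    intro s h
    cases s with
    | var b =>
      rw [codeTerm, codeTerm, Nat.pair_eq_pair] at h
      rw [hv h.2]
    | func g ss =>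
      rw [codeTerm, codeTerm, Nat.pair_eq_pair] at h
      exact absurd h.1 (by norm_num)
  | @func n f ts ih =>
    intro s h
    cases s with
    | var b =>
      rw [codeTerm, codeTerm, Nat.pair_eq_pair] at h
      exact absurd h.1 (by norm_num)
    | @func m g ss =>
      rw [codeTerm, codeTerm, Nat.pair_eq_pair, Nat.pair_eq_pair] at h
      obtain ⟨-, h1, h2⟩ := h
      obtain ⟨rfl, hfg⟩ := codeFunc_injective f g h1
      have hfg' := eq_of_heq hfg
      have h3 := List.ofFn_injective (Encodable.encode_injective h2)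
      have h4 : ts = ss := funext fun i => ih i (congrFun h3 i)
      rw [hfg', h4]

theorem sumElim_injective (n : ℕ) :
    Function.Injective (Sum.elim Empty.elim Fin.val : Empty ⊕ Fin n → ℕ) := by
  rintro (a | a) (b | b) h
  · exact a.elim
  · exact a.elim
  · exact b.elim
  · rw [Sum.elim_inr, Sum.elim_inr] at h
    rw [Fin.ext h]

theorem codeFormula_injective {n : ℕ} :
    Function.Injective (codeFormula (n := n)) := by
  intro φ
  induction φ with
  | falsum =>
    intro ψ h
    cases ψ with
    | falsum => rfl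
    | equal => simp [codeFormula, Nat.pair_eq_pair] at h
    | rel R => exact Empty.elim R
    | imp => simp [codeFormula, Nat.pair_eq_pair] at h
    | all => simp [codeFormula, Nat.pair_eq_pair] at h
  | equal t s =>
    intro ψ h
    cases ψ with
    | falsum => simp [codeFormula, Nat.pair_eq_pair] at h
    | equal t' s' =>
      simp only [codeFormula, Nat.pair_eq_pair] at h
      rw [codeTerm_injective (sumElim_injective _) h.2.1,
        codeTerm_injective (sumElim_injective _) h.2.2]
    | rel R => exact Empty.elim R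
    | imp => simp [codeFormula, Nat.pair_eq_pair] at h
    | all => simp [codeFormula, Nat.pair_eq_pair] at h
  | rel R => exact Empty.elim R
  | imp φ₁ φ₂ ih₁ ih₂ =>
    intro ψ h
    cases ψ with
    | falsum => simp [codeFormula, Nat.pair_eq_pair] at h
    | equal => simp [codeFormula, Nat.pair_eq_pair] at h
    | rel R => exact Empty.elim R
    | imp ψ₁ ψ₂ =>
      simp only [codeFormula, Nat.pair_eq_pair] at h
      rw [ih₁ h.2.1, ih₂ h.2.2]
    | all => simp [codeFormula, Nat.pair_eq_pair] at h
  | all φ ih =>
    intro ψ h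
    cases ψ with
    | falsum => simp [codeFormula, Nat.pair_eq_pair] at h
    | equal => simp [codeFormula, Nat.pair_eq_pair] at h
    | rel R => exact Empty.elim R
    | imp => simp [codeFormula, Nat.pair_eq_pair] at h
    | all ψ =>
      simp only [codeFormula, Nat.pair_eq_pair] at h
      rw [ih h.2]

theorem godel_injective : Function.Injective godel := codeFormula_injective

end Goedel

section Numerals

/-- The numeral `(…(0 + 1) + …) + 1`. -/
def num (α : Type) : ℕ → Language.ring.Term α
  | 0 => 0
  | n + 1 => num α n + 1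

theorem realize_num {M : Type*} [CommRing M] [FirstOrder.Ring.CompatibleRing M] {α : Type}
    (v : α → M) (n : ℕ) : (num α n).realize v = n := by
  induction n with
  | zero => simp [num]
  | succ n ih => rw [num, FirstOrder.Ring.realize_add, ih]; simp

theorem codeTerm_num_zero {α : Type} (v : α → ℕ) :
    codeTerm v (num α 0) = Nat.pair 1 (Nat.pair 3 (Encodable.encode ([] : List ℕ))) := rfl

theorem codeTerm_one {α : Type} (v : α → ℕ) :
    codeTerm v (1 : Language.ring.Term α) =
      Nat.pair 1 (Nat.pair 4 (Encodable.encode ([] : List ℕ))) := rfl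

theorem codeTerm_num_succ {α : Type} (v : α → ℕ) (n : ℕ) :
    codeTerm v (num α (n + 1)) = Nat.pair 1 (Nat.pair 0 (Encodable.encode
      [codeTerm v (num α n), Nat.pair 1 (Nat.pair 4 (Encodable.encode ([] : List ℕ)))])) := rfl

theorem computable_codeTerm_num {α : Type} (v : α → ℕ) :
    Computable fun n => codeTerm v (num α n) := by
  have h : Primrec fun n : ℕ => (Nat.rec (Nat.pair 1 (Nat.pair 3 (Encodable.encode ([] : List ℕ))))
      (fun _ c => Nat.pair 1 (Nat.pair 0 (Encodable.encode
        [c, Nat.pair 1 (Nat.pair 4 (Encodable.encode ([] : List ℕ)))]))) n : ℕ) := by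
    refine Primrec.nat_rec₁ _ ?_
    have h2 : Primrec fun q : ℕ × ℕ =>
        [q.2, Nat.pair 1 (Nat.pair 4 (Encodable.encode ([] : List ℕ)))] :=
      Primrec.list_cons.comp Primrec.snd (Primrec.const _)
    exact (Primrec₂.natPair.comp (Primrec.const 1)
      (Primrec₂.natPair.comp (Primrec.const 0) (Primrec.encode.comp h2)))
  refine h.to_comp.of_eq fun n => ?_
  induction n with
  | zero => rfl
  | succ n ih => rw [codeTerm_num_succ, ← ih]

/-- The sentence `∀ x₀, x₀ = n → Φ(x₀)`. -/
def substNum (Φ : Language.ring.BoundedFormula Empty 1) (n : ℕ) : Language.ring.Sentence :=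
  BoundedFormula.all (BoundedFormula.imp
    (BoundedFormula.equal (Term.var (Sum.inr 0)) (num (Empty ⊕ Fin 1) n)) Φ)

theorem godel_substNum (Φ : Language.ring.BoundedFormula Empty 1) (n : ℕ) :
    godel (substNum Φ n) = Nat.pair 3 (Nat.pair 2 (Nat.pair (Nat.pair 1
      (Nat.pair (Nat.pair 0 0) (codeTerm (Sum.elim Empty.elim Fin.val) (num (Empty ⊕ Fin 1) n))))
      (codeFormula Φ))) := rfl

theorem computable_godel_substNum (Φ : Language.ring.BoundedFormula Empty 1) :
    Computable fun n => godel (substNum Φ n) := by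
  have h := computable_codeTerm_num (α := Empty ⊕ Fin 1) (Sum.elim Empty.elim Fin.val)
  have hp : ∀ {f g : ℕ → ℕ}, Computable f → Computable g →
      Computable fun n => Nat.pair (f n) (g n) := fun hf hg =>
    (Primrec₂.natPair.to_comp).comp hf hg
  exact hp (Computable.const 3) (hp (Computable.const 2) (hp (hp (Computable.const 1)
    (hp (Computable.const _) h)) (Computable.const _)))

theorem realize_substNum {M : Type*} [CommRing M] [FirstOrder.Ring.CompatibleRing M]
    (Φ : Language.ring.BoundedFormula Empty 1) (n : ℕ) :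
    M ⊨ substNum Φ n ↔ Φ.Realize default (fun _ => (n : M)) := by
  unfold substNum
  rw [Sentence.Realize, Formula.Realize, BoundedFormula.realize_all]
  have key : ∀ a : M, (Fin.snoc (default : Fin 0 → M) a : Fin 1 → M) = fun _ => a := by
    intro a
    funext i
    fin_cases i
    rfl
  constructor
  · intro h
    have h1 := h n
    rw [BoundedFormula.realize_imp] at h1
    rw [key] at h1
    apply h1
    change Term.realize _ _ = Term.realize _ _
    rw [realize_num]
    rfl
  · intro h a
    rw [BoundedFormula.realize_imp, key]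
    intro h1
    change Term.realize _ _ = Term.realize _ _ at h1
    rw [realize_num] at h1
    have h2 : a = n := h1
    rwa [h2]

end Numerals

end Pool.Agent.Helper63.ZabUnd
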