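import Pool.Agent.Helper63.ZabUnd.IntsDef
import Pool.Agent.Helper63.ZabUnd.Logic
import Pool.Agent.Helper81.DPRM

/-!
The first-order theory of `ℤ^ab` is undecidable; `ℤ` and `ℤ^ab ∩ ℝ` are definable in `ℤ^ab`.
-/

namespace Pool.Agent.Helper63.ZabUnd

open FirstOrder Language

attribute [local instance] FirstOrder.Ring.compatibleRingOfRing

section Sets

variable {α : Type}

theorem dfn_mu {f : (α → Zab) → Zab} (hf : Tm f) : Dfn (fun v => ((f v : Zab) : ℂ) ∈ rootsU) := by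
  simp only [mem_rootsU_iff]
  refine Dfn.ex ?_
  refine Dfn.ex ?_
  refine Dfn.ex ?_
  have hf' := hf.lift (β := ((α ⊕ Unit) ⊕ Unit) ⊕ Unit) (fun a => Sum.inl (Sum.inl (Sum.inl a)))
  have hβ : Tm (fun u : ((α ⊕ Unit) ⊕ Unit) ⊕ Unit → Zab => u (Sum.inl (Sum.inl (Sum.inr ())))) :=
    Tm.var _
  refine (Dfn.ne hβ Tm.zero).and (Dfn.and ?_ (Dfn.and ?_ ?_))
  · exact Dfn.eq ((Tm.one.sub (hβ.pow 4)).mul (Tm.var _)) Tm.one
  · exact Dfn.ne (hf'.mul hβ) Tm.zero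
  · exact Dfn.eq ((Tm.one.sub ((hf'.mul hβ).pow 4)).mul (Tm.var _)) Tm.one

theorem dfn_int {f : (α → Zab) → Zab} (hf : Tm f) : Dfn (fun v => ∃ m : ℤ, f v = m) := by
  simp only [mem_int_iff]
  refine Dfn.all ?_
  refine (dfn_mu (Tm.var _)).imp ?_
  refine Dfn.ex ?_
  refine Dfn.ex ?_
  refine (dfn_mu (Tm.var _)).and ?_
  have hf' := hf.lift (β := ((α ⊕ Unit) ⊕ Unit) ⊕ Unit) (fun a => Sum.inl (Sum.inl (Sum.inl a)))
  have hζ : Tm (fun u : ((α ⊕ Unit) ⊕ Unit) ⊕ Unit → Zab => u (Sum.inl (Sum.inl (Sum.inr ())))) :=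
    Tm.var _
  exact Dfn.eq (((Tm.var _).sub Tm.one).sub (hf'.mul (hζ.sub Tm.one)))
    ((Tm.var _).mul ((hζ.sub Tm.one).pow 2))

theorem nat_iff (x : Zab) : (∃ n : ℕ, x = n) ↔
    ∃ w : Fin 4 → Zab, (∀ i, ∃ m : ℤ, w i = m) ∧
      x = w 0 ^ 2 + w 1 ^ 2 + w 2 ^ 2 + w 3 ^ 2 := by
  constructor
  · rintro ⟨n, rfl⟩
    obtain ⟨a, b, c, d, h⟩ := Nat.sum_four_squares n
    refine ⟨![(a : Zab), b, c, d], ?_, ?_⟩
    · intro i
      fin_cases i
      · exact ⟨a, by simp⟩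
      · exact ⟨b, by simp⟩
      · exact ⟨c, by simp⟩
      · exact ⟨d, by simp⟩
    · rw [← h]
      simp
  · rintro ⟨w, hw, hx⟩
    choose m hm using hw
    refine ⟨(m 0 ^ 2 + m 1 ^ 2 + m 2 ^ 2 + m 3 ^ 2).toNat, ?_⟩
    have h0 : 0 ≤ m 0 ^ 2 + m 1 ^ 2 + m 2 ^ 2 + m 3 ^ 2 := by positivity
    have h1 : (((m 0 ^ 2 + m 1 ^ 2 + m 2 ^ 2 + m 3 ^ 2).toNat : ℤ) : Zab) =
        ((m 0 ^ 2 + m 1 ^ 2 + m 2 ^ 2 + m 3 ^ 2 : ℤ) : Zab) := by
      rw [Int.toNat_of_nonneg h0]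
    rw [Int.cast_natCast] at h1
    rw [h1, hx, hm, hm, hm, hm]
    push_cast
    ring

theorem dfn_nat {f : (α → Zab) → Zab} (hf : Tm f) : Dfn (fun v => ∃ n : ℕ, f v = n) := by
  simp only [nat_iff]
  have h : Dfn (fun u : α ⊕ Fin 4 → Zab => (∀ i : Fin 4, ∃ m : ℤ, u (Sum.inr i) = m) ∧
      f (fun a => u (Sum.inl a)) = u (Sum.inr 0) ^ 2 + u (Sum.inr 1) ^ 2 + u (Sum.inr 2) ^ 2 +
        u (Sum.inr 3) ^ 2) := by
    refine Dfn.and (Dfn.forall_fin fun i => dfn_int (Tm.var _)) ?_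
    exact Dfn.eq (hf.lift _) (((((Tm.var _).pow 2).add ((Tm.var _).pow 2)).add
      ((Tm.var _).pow 2)).add ((Tm.var _).pow 2))
  exact h.exs

/-- Solvability of a Diophantine equation in natural numbers, with one parameter from
`ℤ^ab`. -/
theorem dfn_dioph (k : ℕ) (p : MvPolynomial (Option (Fin k)) ℤ) :
    Dfn (fun v : Fin 1 → Zab => ∃ t : Fin k → ℕ,
      p.eval₂ (Int.castRingHom Zab) (fun i => Option.elim i (v 0) fun j => (t j : Zab)) = 0) := by
  have h : Dfn (fun u : Fin 1 ⊕ Fin k → Zab => (∀ i : Fin k, ∃ n : ℕ, u (Sum.inr i) = n) ∧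
      p.eval₂ (Int.castRingHom Zab) (fun i => Option.elim i (u (Sum.inl 0))
        fun j => u (Sum.inr j)) = 0) := by
    refine Dfn.and (Dfn.forall_fin fun i => dfn_nat (Tm.var _)) ?_
    refine Dfn.eq ?_ Tm.zero
    refine Tm.mvPoly p (fun i u => Option.elim i (u (Sum.inl 0)) fun j => u (Sum.inr j)) ?_
    intro i
    cases i with
    | none => exact Tm.var _
    | some j => exact Tm.var _
  refine h.exs.congr fun v => ?_
  constructor
  · rintro ⟨w, hw, h0⟩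
    choose t ht using hw
    refine ⟨t, ?_⟩
    have h1 : w = fun j => (t j : Zab) := funext ht
    rw [h1] at h0
    exact h0
  · rintro ⟨t, ht⟩
    exact ⟨fun j => (t j : Zab), fun i => ⟨t i, rfl⟩, ht⟩

end Sets

/-- A decision procedure for the theory of `ℤ^ab` does not exist. -/
theorem undecidable : ¬ ∃ D : ℕ → Bool, Computable D ∧
    ∀ φ : Language.ring.Sentence, (D (godel φ) = true ↔ Zab ⊨ φ) := by
  rintro ⟨D, hD, hDφ⟩
  obtain ⟨k, p, hp⟩ := Pool.Agent.Helper81.exists_undecidable_dioph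
  obtain ⟨φ, hφ⟩ := dfn_dioph k p
  apply hp
  refine ComputablePred.computable_iff.2
    ⟨fun n => D (godel (substNum (BoundedFormula.relabel Sum.inr φ) n)),
      hD.comp (computable_godel_substNum _), ?_⟩
  funext n
  apply propext
  rw [show ((D (godel (substNum (BoundedFormula.relabel Sum.inr φ) n)) : Prop)) =
    (D (godel (substNum (BoundedFormula.relabel Sum.inr φ) n)) = true) from rfl, hDφ,
    realize_substNum]
  have h1 := Formula.realize_relabel_sumInr (M := Zab) φ (v := default)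
    (x := fun _ : Fin 1 => (n : Zab))
  refine Iff.trans ?_ (h1.trans (hφ _)).symm
  refine exists_congr fun t => ?_
  have h2 : (fun i => Option.elim i ((n : ℕ) : Zab) fun j => ((t j : ℕ) : Zab)) =
      fun i => Int.castRingHom Zab (Option.elim i (n : ℤ) fun j => (t j : ℤ)) := by
    funext i
    cases i <;> simp
  rw [h2]
  have h3 := MvPolynomial.eval₂_comp_left (Int.castRingHom Zab) (RingHom.id ℤ)
    (fun i => Option.elim i (n : ℤ) fun j => (t j : ℤ)) p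
  have h4 : p.eval₂ (Int.castRingHom Zab)
      (fun i => Int.castRingHom Zab (Option.elim i (n : ℤ) fun j => (t j : ℤ))) =
      ((MvPolynomial.eval (fun i => Option.elim i (n : ℤ) fun j => (t j : ℤ)) p : ℤ) : Zab) := by
    rw [RingHom.comp_id] at h3
    exact h3.symm
  rw [h4, Int.cast_eq_zero]

end Pool.Agent.Helper63.ZabUnd
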