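import Pool.Agent.Helper63.ZabUnd.Main

/-!
Complex conjugation is first-order definable in `ℤ^ab`, hence so is `ℤ^ab ∩ ℝ`.
-/

namespace Pool.Agent.Helper63.ZabUnd

open FirstOrder Language IntermediateField

attribute [local instance] FirstOrder.Ring.compatibleRingOfRing

theorem conj_mem {x : ℂ} (hx : x ∈ Zab) : (starRingEnd ℂ) x ∈ Zab := by
  refine ⟨(conj_comm (S := rootsU) (fun _ h => h) (algebraMap _ _) hx.1).1, ?_⟩
  have := hx.2.map ((starRingEnd ℂ) : ℂ →+* ℂ).toIntAlgHom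
  simpa using this

/-- Complex conjugation on `ℤ^ab`. -/
noncomputable def conjZ (x : Zab) : Zab := ⟨(starRingEnd ℂ) (x : ℂ), conj_mem x.2⟩

theorem conjZ_mul (x y : Zab) : conjZ (x * y) = conjZ x * conjZ y := by
  ext; simp [conjZ]

theorem conjZ_sub (x y : Zab) : conjZ (x - y) = conjZ x - conjZ y := by
  ext; simp [conjZ]

theorem conjZ_int (m : ℤ) : conjZ (m : Zab) = m := by
  ext; simp [conjZ]

theorem conjZ_root {ζ ζ' : Zab} (hζ : (ζ : ℂ) ∈ rootsU) (h : ζ * ζ' = 1) : conjZ ζ = ζ' := by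
  ext
  have h1 : (ζ : ℂ) * (ζ' : ℂ) = 1 := by simpa using congrArg Subtype.val h
  change (starRingEnd ℂ) (ζ : ℂ) = ζ'
  rw [rootsU_conj hζ]
  exact (eq_inv_of_mul_eq_one_right h1).symm

theorem conjZ_ev {ζ ζ' : Zab} (hζ : (ζ : ℂ) ∈ rootsU) (h : ζ * ζ' = 1) (G : Polynomial ℤ) :
    conjZ (ev ζ G) = ev ζ' G := by
  rw [← conjZ_root hζ h]
  ext
  rw [coe_ev]
  change (starRingEnd ℂ) ((ev ζ G : Zab) : ℂ) = ev ((starRingEnd ℂ) (ζ : ℂ)) G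
  rw [coe_ev, map_ev]

/-- If `B - ζ` divides the integer `E` in `ℤ^ab` and `|B| > |E| + 1`, then `E = 0`. -/
theorem int_dvd_bound {ζ s : Zab} (hζ : (ζ : ℂ) ∈ rootsU) {B E : ℤ} (h : (B - ζ) * s = E)
    (hB : |(E : ℝ)| + 1 < |(B : ℝ)|) : E = 0 := by
  by_contra hE
  have hT : (({(ζ : ℂ)} : Finset ℂ) : Set ℂ) ⊆ rootsU := by
    intro x hx
    rw [Finset.coe_singleton, Set.mem_singleton_iff] at hx
    exact hx ▸ hζ
  have hζT : (ζ : ℂ) ∈ adjoin ℚ (({(ζ : ℂ)} : Finset ℂ) : Set ℂ) :=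
    IntermediateField.subset_adjoin _ _ (by simp)
  have h' : ((B : ℂ) - ζ) * (s : ℂ) = E := by
    have := congrArg Subtype.val h
    simpa using this
  have hEC : (E : ℂ) ≠ 0 := Int.cast_ne_zero.2 hE
  have hB0 : ((B : ℂ) - ζ) ≠ 0 := left_ne_zero_of_mul (h' ▸ hEC)
  have hs : (s : ℂ) = E / ((B : ℂ) - ζ) := by
    rw [eq_div_iff hB0, mul_comm]
    exact h'
  have hs0 : (s : ℂ) ≠ 0 := right_ne_zero_of_mul (h' ▸ hEC)
  have hBT : ∀ m : ℤ, (m : ℂ) ∈ adjoin ℚ (({(ζ : ℂ)} : Finset ℂ) : Set ℂ) := fun m =>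
    IntermediateField.intCast_mem _ m
  have hsT : (s : ℂ) ∈ adjoin ℚ (({(ζ : ℂ)} : Finset ℂ) : Set ℂ) := by
    rw [hs]
    exact div_mem (hBT E) (sub_mem (hBT B) hζT)
  have hb : 0 < |(B : ℝ)| - 1 := by
    have := abs_nonneg (E : ℝ)
    linarith
  have key := kronecker hT hsT hs0 s.2.2 fun φ => by
    have e1 : ((B : ℂ) - φ ⟨ζ, hζT⟩) * φ ⟨s, hsT⟩ = E := by
      have e2 : ((B : adjoin ℚ (({(ζ : ℂ)} : Finset ℂ) : Set ℂ)) - ⟨ζ, hζT⟩) * ⟨s, hsT⟩ = E := by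
        ext
        simpa using h'
      have e3 := congrArg φ e2
      rw [map_mul, map_sub, map_intCast, map_intCast] at e3
      exact e3
    have e2 : ‖φ ⟨ζ, hζT⟩‖ = 1 := by
      apply rootsU_norm
      obtain ⟨n, hn, hcn⟩ := hζ
      refine ⟨n, hn, ?_⟩
      rw [← map_pow, ← map_one φ]
      congr 1
      ext
      exact hcn
    have e3 : |(B : ℝ)| - 1 ≤ ‖(B : ℂ) - φ ⟨ζ, hζT⟩‖ := by
      have := norm_sub_norm_le (B : ℂ) (φ ⟨ζ, hζT⟩)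
      rw [e2, Complex.norm_intCast] at this
      exact this
    have e4 : ‖(B : ℂ) - φ ⟨ζ, hζT⟩‖ * ‖φ ⟨s, hsT⟩‖ = |(E : ℝ)| := by
      rw [← norm_mul, e1, Complex.norm_intCast]
    by_contra hgt
    rw [not_le] at hgt
    have e5 : (|(B : ℝ)| - 1) * 1 ≤ ‖(B : ℂ) - φ ⟨ζ, hζT⟩‖ * ‖φ ⟨s, hsT⟩‖ :=
      mul_le_mul e3 hgt.le zero_le_one (hb.le.trans e3)
    rw [e4] at e5
    linarith
  have e1 : ‖(B : ℂ) - ζ‖ * ‖(s : ℂ)‖ = |(E : ℝ)| := by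
    rw [← norm_mul, h', Complex.norm_intCast]
  have e2 := norm_sub_norm_le (B : ℂ) (ζ : ℂ)
  rw [rootsU_norm hζ, Complex.norm_intCast] at e2
  rw [rootsU_norm key, mul_one] at e1
  linarith

theorem conj_iff (x y : Zab) : conjZ x = y ↔
    ∃ ζ : Zab, (ζ : ℂ) ∈ rootsU ∧ ∃ ζ' : Zab, ζ * ζ' = 1 ∧ ∃ D : Zab, D ≠ 0 ∧ (∃ m : ℤ, D = m) ∧
      ∀ A : Zab, (∃ m : ℤ, A = m) → ∃ B : Zab, (∃ m : ℤ, B = m) ∧
        (∃ n : ℕ, B ^ 2 - A ^ 2 = n) ∧ ∃ c : Zab, (∃ m : ℤ, c = m) ∧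
        (∃ s : Zab, (B - ζ) * s = D * x - c) ∧ ∃ s : Zab, (B - ζ') * s = D * y - c := by
  constructor
  · rintro rfl
    obtain ⟨n, hn, ζ, hζ, hx⟩ := exists_cyclotomic x.2.1
    have hζU : ζ ∈ rootsU := ⟨n, hn, hζ.pow_eq_one⟩
    obtain ⟨D, hD, G, hG⟩ := exists_int_poly (rootsU_integral hζU) hx
    have hG' : (D : Zab) * x = ev (⟨ζ, rootsU_mem_Zab hζU⟩ : Zab) G := by
      ext
      rw [coe_ev]
      simpa using hG
    have hinv : (⟨ζ, rootsU_mem_Zab hζU⟩ : Zab) * ⟨ζ⁻¹, rootsU_mem_Zab (rootsU_inv hζU)⟩ = 1 :=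
      Subtype.ext (mul_inv_cancel₀ (rootsU_ne_zero hζU))
    have hdvd : ∀ (w : Zab) (B : ℤ), ∃ s : Zab, ((B : Zab) - w) * s = ev w G - (G.eval B : ℤ) := by
      intro w B
      have h1 : ((G.eval B : ℤ) : Zab) = ev (B : Zab) G := by
        have := map_ev (Int.castRingHom Zab) B G
        rw [eq_intCast, eq_intCast] at this
        rw [← this]
        congr 1
      have h2 : (B : Zab) - w ∣ ev (B : Zab) G - ev w G := by
        have := Polynomial.sub_dvd_eval_sub (B : Zab) w (G.map (Int.castRingHom Zab))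
        rwa [Polynomial.eval_map, Polynomial.eval_map] at this
      obtain ⟨s, hs⟩ := h2
      refine ⟨-s, ?_⟩
      rw [h1]
      linear_combination hs
    refine ⟨⟨ζ, rootsU_mem_Zab hζU⟩, hζU, _, hinv, D, Int.cast_ne_zero.2 hD, ⟨D, rfl⟩, ?_⟩
    rintro _ ⟨A, rfl⟩
    refine ⟨A, ⟨A, rfl⟩, ⟨0, by simp⟩, ((G.eval A : ℤ) : Zab), ⟨_, rfl⟩, ?_, ?_⟩
    · rw [hG']
      exact hdvd _ A
    · have h1 : (D : Zab) * conjZ x = ev (⟨ζ⁻¹, rootsU_mem_Zab (rootsU_inv hζU)⟩ : Zab) G := by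
        rw [← conjZ_ev (ζ := ⟨ζ, rootsU_mem_Zab hζU⟩) hζU hinv G, ← hG', conjZ_mul, conjZ_int]
      rw [h1]
      exact hdvd _ A
  · rintro ⟨ζ, hζ, ζ', hinv, D, hD, ⟨d, rfl⟩, h⟩
    by_contra hne
    have hδ : (d : Zab) * (y - conjZ x) ≠ 0 := mul_ne_zero hD (sub_ne_zero.2 (Ne.symm hne))
    obtain ⟨E, hE, hEd⟩ := exists_dvd_int hδ
    obtain ⟨_, ⟨b, rfl⟩, ⟨n, hn⟩, _, ⟨c, rfl⟩, ⟨s, hs⟩, ⟨s', hs'⟩⟩ :=
      h ((|E| + 2 : ℤ) : Zab) ⟨_, rfl⟩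
    have hζ' : (ζ' : ℂ) ∈ rootsU := by
      have h1 : (ζ : ℂ) * (ζ' : ℂ) = 1 := by simpa using congrArg Subtype.val hinv
      rw [eq_inv_of_mul_eq_one_right h1]
      exact rootsU_inv hζ
    have h1 : ((b : Zab) - ζ') * conjZ s = d * conjZ x - c := by
      have := congrArg conjZ hs
      rw [conjZ_mul, conjZ_sub, conjZ_sub, conjZ_mul, conjZ_int, conjZ_int, conjZ_int,
        conjZ_root hζ hinv] at this
      exact this
    obtain ⟨t, ht⟩ := hEd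
    have h2 : ((b : Zab) - ζ') * ((s' - conjZ s) * t) = E := by
      rw [ht]
      linear_combination t * hs' - t * h1
    refine hE (int_dvd_bound hζ' h2 ?_)
    have h3 : b ^ 2 - (|E| + 2) ^ 2 = (n : ℤ) := by
      have : ((b ^ 2 - (|E| + 2) ^ 2 : ℤ) : Zab) = ((n : ℤ) : Zab) := by
        push_cast at hn ⊢
        exact hn
      exact Int.cast_injective this
    have h4 : (|E| + 2) ^ 2 ≤ b ^ 2 := by
      have : (0 : ℤ) ≤ n := Int.natCast_nonneg n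
      linarith
    have h5 : |E| + 2 ≤ |b| := by
      have h6 := sq_le_sq.1 h4
      rwa [abs_of_nonneg (by positivity)] at h6
    have h6 : ((|E| + 2 : ℤ) : ℝ) ≤ ((|b| : ℤ) : ℝ) := by exact_mod_cast h5
    push_cast at h6
    linarith

/-- The graph of complex conjugation is definable. -/
theorem dfn_conj {α : Type} {f g : (α → Zab) → Zab} (hf : Tm f) (hg : Tm g) :
    Dfn (fun v => conjZ (f v) = g v) := by
  simp only [conj_iff]
  refine Dfn.ex ((dfn_mu (Tm.var _)).and (Dfn.ex ?_))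
  refine Dfn.and (Dfn.eq ((Tm.var _).mul (Tm.var _)) Tm.one) (Dfn.ex ?_)
  refine Dfn.and (Dfn.ne (Tm.var _) Tm.zero) (Dfn.and (dfn_int (Tm.var _)) (Dfn.all ?_))
  refine (dfn_int (Tm.var _)).imp (Dfn.ex ?_)
  refine Dfn.and (dfn_int (Tm.var _)) (Dfn.and ?_ (Dfn.ex ?_))
  · exact dfn_nat (((Tm.var _).pow 2).sub ((Tm.var _).pow 2))
  refine Dfn.and (dfn_int (Tm.var _)) (Dfn.and (Dfn.ex ?_) (Dfn.ex ?_))
  · exact Dfn.eq (((Tm.var _).sub (Tm.var _)).mul (Tm.var _))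
      (((Tm.var _).mul (hf.lift _)).sub (Tm.var _))
  · exact Dfn.eq (((Tm.var _).sub (Tm.var _)).mul (Tm.var _))
      (((Tm.var _).mul (hg.lift _)).sub (Tm.var _))

end Pool.Agent.Helper63.ZabUnd
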