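import Pool.Agent.Helper63.ZabUnd.Real

/-!
`ℤ^rab = ℤ^ab ∩ ℝ` is first-order definable in `ℤ^ab` without parameters.

`Zab` is the subring of `ℂ` of all algebraic integers in the field generated over `ℚ` by all
complex roots of unity.

Proof. Roots of unity and `ℤ` are definable (`mem_rootsU_iff`, `mem_int_iff`). For `x` in
`ℤ^ab` some multiple `D x` is `G(ζ)` with `G` an integral polynomial and `ζ` a root of unity,
so `D x ≡ G(B)` modulo `B - ζ` and `D conj x ≡ G(B)` modulo `B - ζ⁻¹` for all integers `B`;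
conversely, if for arbitrarily large integers `B` there is an integer `c` with `D x ≡ c` modulo
`B - ζ` and `D y ≡ c` modulo `B - ζ⁻¹`, then `y = conj x` (`conj_iff`).
-/

namespace Pool.Agent.Helper63.ZabUnd.RealPartDefinable

open FirstOrder Language Pool.Agent.Helper63.ZabUnd

attribute [local instance] FirstOrder.Ring.compatibleRingOfRing

/-- `ℤ^ab ∩ ℝ` is first-order definable in the ring `ℤ^ab` without parameters. -/
theorem result : (∅ : Set Zab).Definable₁ Language.ring {x : Zab | (x : ℂ).im = 0} := by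
  obtain ⟨φ, hφ⟩ := dfn_conj (α := Fin 1) (Tm.var 0) (Tm.var 0)
  refine Set.empty_definable_iff.2 ⟨φ, ?_⟩
  ext v
  refine Iff.trans ?_ (hφ v).symm
  have h1 : conjZ (v 0) = v 0 ↔ (starRingEnd ℂ) ((v 0 : Zab) : ℂ) = v 0 :=
    ⟨fun h => congrArg Subtype.val h, fun h => Subtype.ext h⟩
  exact (h1.trans Complex.conj_eq_iff_im).symm

end Pool.Agent.Helper63.ZabUnd.RealPartDefinable
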