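import Pool.Agent.Helper63.ZabUnd.Basic

/-!
Units of `ℤ^ab`, and the existential definition of the roots of unity.
-/

namespace Pool.Agent.Helper63.ZabUnd

open Complex IntermediateField

theorem exists_finset {x : ℂ} (hx : x ∈ Qab) :
    ∃ T : Finset ℂ, (T : Set ℂ) ⊆ rootsU ∧ x ∈ adjoin ℚ (T : Set ℂ) :=
  IntermediateField.exists_finset_of_mem_adjoin hx

/-- A unit of `ℤ^ab` and its complex conjugate differ by a root of unity. -/
theorem conj_unit {u w : ℂ} (hu : u ∈ Zab) (hw : w ∈ Zab) (h : u * w = 1) :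
    ∃ η ∈ rootsU, (starRingEnd ℂ) u = η * u := by
  obtain ⟨T, hT, hx⟩ := exists_finset hu.1
  have hu0 : u ≠ 0 := left_ne_zero_of_mul_eq_one h
  have hw0 : w ≠ 0 := right_ne_zero_of_mul_eq_one h
  have hwu : w = u⁻¹ := eq_inv_of_mul_eq_one_right h
  have hwT : w ∈ adjoin ℚ (T : Set ℂ) := hwu ▸ inv_mem hx
  have hcu0 : (starRingEnd ℂ) u ≠ 0 := by simpa using hu0
  refine ⟨(starRingEnd ℂ) u * w, ?_, by rw [mul_assoc, mul_comm w u, h, mul_one]⟩
  have hmem : ∀ φ : adjoin ℚ (T : Set ℂ) →+* ℂ, ∃ h : (starRingEnd ℂ) u ∈ adjoin ℚ (T : Set ℂ),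
      φ ⟨(starRingEnd ℂ) u, h⟩ = (starRingEnd ℂ) (φ ⟨u, hx⟩) := fun φ => conj_comm hT φ hx
  have hcT : (starRingEnd ℂ) u ∈ adjoin ℚ (T : Set ℂ) :=
    (hmem (algebraMap _ _)).1
  have hi : IsIntegral ℤ ((starRingEnd ℂ) u) := by
    have := hu.2.map ((starRingEnd ℂ) : ℂ →+* ℂ).toIntAlgHom
    simpa using this
  refine kronecker hT (mul_mem hcT hwT) (mul_ne_zero hcu0 hw0) (hi.mul hw.2) fun φ => ?_
  obtain ⟨h1, h2⟩ := hmem φ
  have e1 : (⟨(starRingEnd ℂ) u * w, mul_mem hcT hwT⟩ : adjoin ℚ (T : Set ℂ)) =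
      ⟨(starRingEnd ℂ) u, h1⟩ * ⟨w, hwT⟩ := rfl
  have e2 : φ ⟨u, hx⟩ * φ ⟨w, hwT⟩ = 1 := by
    rw [← map_mul, ← map_one φ]
    congr 1
    ext
    exact h
  rw [e1, map_mul, h2, norm_mul]
  have e3 : ‖φ ⟨u, hx⟩‖ * ‖φ ⟨w, hwT⟩‖ = 1 := by
    rw [← norm_mul, e2, norm_one]
  have e4 : ‖(starRingEnd ℂ) (φ ⟨u, hx⟩)‖ = ‖φ ⟨u, hx⟩‖ := RCLike.norm_conj _
  rw [e4, e3]

theorem eq_neg_one_of_norm {c : ℂ} (h1 : ‖c‖ = 1) (h2 : ‖1 - c‖ = 2) : c = -1 := by
  have h3 : c.re ^ 2 + c.im ^ 2 = 1 := by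
    have := Complex.sq_norm c
    rw [h1, Complex.normSq_apply] at this
    linarith
  have h4 : (1 - c.re) ^ 2 + c.im ^ 2 = 4 := by
    have := Complex.sq_norm (1 - c)
    rw [h2, Complex.normSq_apply] at this
    simp only [sub_re, one_re, sub_im, one_im] at this
    linarith
  have h5 : c.re = -1 := by nlinarith
  have h6 : c.im = 0 := by
    have : c.im ^ 2 = 0 := by nlinarith
    exact pow_eq_zero_iff (two_ne_zero) |>.1 this
  apply Complex.ext
  · simpa using h5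
  · simpa using h6

theorem eq_neg_one {c d : ℂ} (hc : c ∈ rootsU) (hc1 : c ≠ 1) (hd : IsIntegral ℤ d)
    (h : 1 - c = 2 * d) : c = -1 := by
  have hT : (({c} : Finset ℂ) : Set ℂ) ⊆ rootsU := by
    intro x hx
    rw [Finset.coe_singleton, Set.mem_singleton_iff] at hx
    exact hx ▸ hc
  have hcT : c ∈ adjoin ℚ (({c} : Finset ℂ) : Set ℂ) :=
    IntermediateField.subset_adjoin _ _ (by simp)
  have hd' : d = (1 - c) / 2 := by
    rw [h]
    ring
  have h2 : (2 : ℂ) ∈ adjoin ℚ (({c} : Finset ℂ) : Set ℂ) := by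
    have := IntermediateField.natCast_mem (adjoin ℚ (({c} : Finset ℂ) : Set ℂ)) 2
    exact_mod_cast this
  have hdT : d ∈ adjoin ℚ (({c} : Finset ℂ) : Set ℂ) := by
    rw [hd']
    exact div_mem (sub_mem (one_mem _) hcT) h2
  have hd0 : d ≠ 0 := by
    intro h0
    rw [h0, mul_zero, sub_eq_zero] at h
    exact hc1 h.symm
  have key := kronecker hT hdT hd0 hd fun φ => by
    have e1 : 2 * φ ⟨d, hdT⟩ = 1 - φ ⟨c, hcT⟩ := by
      rw [← map_ofNat φ 2, ← map_mul, ← map_one φ, ← map_sub]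
      congr 1
      ext
      exact h.symm
    have e2 : ‖φ ⟨c, hcT⟩‖ = 1 := by
      apply rootsU_norm
      obtain ⟨n, hn, hcn⟩ := hc
      refine ⟨n, hn, ?_⟩
      rw [← map_pow, ← map_one φ]
      congr 1
      ext
      exact hcn
    have e3 : ‖2 * φ ⟨d, hdT⟩‖ ≤ 2 := by
      rw [e1]
      calc ‖1 - φ ⟨c, hcT⟩‖ ≤ ‖(1 : ℂ)‖ + ‖φ ⟨c, hcT⟩‖ := norm_sub_le _ _
        _ = 2 := by rw [e2, norm_one]; norm_num
    rw [norm_mul] at e3
    have e4 : ‖(2 : ℂ)‖ = 2 := by simp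
    rw [e4] at e3
    linarith
  apply eq_neg_one_of_norm (rootsU_norm hc)
  rw [h, norm_mul, rootsU_norm key]
  simp

/-- If `x, y` are units of `ℤ^ab` with `x + y = 2`, then `x` is real or `1 - x` is a root of
unity. -/
theorem unit_add_unit {x y x' y' : ℂ} (hx : x ∈ Zab) (hy : y ∈ Zab) (hx' : x' ∈ Zab)
    (hy' : y' ∈ Zab) (h1 : x * x' = 1) (h2 : y * y' = 1) (h : x + y = 2) :
    (starRingEnd ℂ) x = x ∨ 1 - x ∈ rootsU := by
  obtain ⟨η, hη, e1⟩ := conj_unit hx hx' h1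
  obtain ⟨θ, hθ, e2⟩ := conj_unit hy hy' h2
  have e3 : η * x + θ * y = 2 := by
    rw [← e1, ← e2, ← map_add, h]
    exact map_ofNat _ 2
  by_cases hη1 : η = 1
  · left
    rw [e1, hη1, one_mul]
  right
  have hθ0 : θ ≠ 0 := rootsU_ne_zero hθ
  have hx0 : x ≠ 0 := left_ne_zero_of_mul_eq_one h1
  have hne : η * θ⁻¹ ≠ 1 := by
    intro h'
    have h'' : η = θ := by
      field_simp at h'
      exact h'
    apply hη1
    have : η * 2 = 1 * 2 := by
      calc η * 2 = η * x + θ * y := by rw [← h, ← h'']; ring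
        _ = 1 * 2 := by rw [e3, one_mul]
    exact mul_right_cancel₀ two_ne_zero this
  have hy' : y = 2 - x := by rw [← h]; ring
  have e4 : (1 - η * θ⁻¹) = 2 * ((1 - θ⁻¹) * x') := by
    have h3 : (1 - η * θ⁻¹) * x = 2 * (1 - θ⁻¹) := by
      field_simp
      rw [hy'] at e3
      linear_combination -e3
    calc (1 - η * θ⁻¹) = (1 - η * θ⁻¹) * x * x' := by rw [mul_assoc, h1, mul_one]
      _ = 2 * ((1 - θ⁻¹) * x') := by rw [h3]; ring
  have hint : IsIntegral ℤ ((1 - θ⁻¹) * x') :=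
    (isIntegral_one.sub (rootsU_integral (rootsU_inv hθ))).mul hx'.2
  have e5 := eq_neg_one (rootsU_mul hη (rootsU_inv hθ)) hne hint e4
  have e6 : (1 - θ⁻¹) * x' = 1 := by
    rw [e5] at e4
    have : (2 : ℂ) * 1 = 2 * ((1 - θ⁻¹) * x') := by rw [← e4]; norm_num
    exact (mul_left_cancel₀ two_ne_zero this).symm
  have e7 : x = 1 - θ⁻¹ := by
    calc x = ((1 - θ⁻¹) * x') * x := by rw [e6, one_mul]
      _ = (1 - θ⁻¹) * (x * x') := by ring
      _ = 1 - θ⁻¹ := by rw [h1, mul_one]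
  rw [e7, sub_sub_cancel]
  exact rootsU_inv hθ

theorem I_mem : I ∈ Zab := rootsU_mem_Zab rootsU_I

/-- If `1 - α ^ 4` is a unit of `ℤ^ab` then `α` is `0` or a root of unity. -/
theorem eq_zero_or_root {α w : ℂ} (hα : α ∈ Zab) (hw : w ∈ Zab) (h : (1 - α ^ 4) * w = 1) :
    α = 0 ∨ α ∈ rootsU := by
  have m1 : 1 + α ∈ Zab := add_mem (one_mem _) hα
  have m2 : 1 - α ∈ Zab := sub_mem (one_mem _) hα
  have m3 : I * α ∈ Zab := mul_mem I_mem hα
  have m4 : 1 + I * α ∈ Zab := add_mem (one_mem _) m3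
  have m5 : 1 - I * α ∈ Zab := sub_mem (one_mem _) m3
  have hfac : 1 - α ^ 4 = (1 + α) * (1 - α) * ((1 + I * α) * (1 - I * α)) := by
    have : I ^ 2 = -1 := Complex.I_sq
    linear_combination (α ^ 2 * (1 - α ^ 2)) * this
  rw [hfac] at h
  have a1 := unit_add_unit (x := 1 + α) (y := 1 - α) m1 m2
    (x' := (1 - α) * ((1 + I * α) * (1 - I * α)) * w)
    (y' := (1 + α) * ((1 + I * α) * (1 - I * α)) * w)
    (mul_mem (mul_mem m2 (mul_mem m4 m5)) hw) (mul_mem (mul_mem m1 (mul_mem m4 m5)) hw)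
    (by linear_combination h) (by linear_combination h) (by ring)
  have a2 := unit_add_unit (x := 1 + I * α) (y := 1 - I * α) m4 m5
    (x' := (1 - I * α) * ((1 + α) * (1 - α)) * w)
    (y' := (1 + I * α) * ((1 + α) * (1 - α)) * w)
    (mul_mem (mul_mem m5 (mul_mem m1 m2)) hw) (mul_mem (mul_mem m4 (mul_mem m1 m2)) hw)
    (by linear_combination h) (by linear_combination h) (by ring)
  rcases a1 with a1 | a1
  · rcases a2 with a2 | a2
    · left
      rw [map_add, map_one, add_right_inj] at a1 a2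
      rw [map_mul, a1, conj_I] at a2
      have : (2 * I) * α = 0 := by linear_combination -a2
      rcases mul_eq_zero.1 this with h' | h'
      · simp at h'
      · exact h'
    · right
      have h1 : 1 - (1 + I * α) = -(I * α) := by ring
      rw [h1] at a2
      have h2 := rootsU_mul rootsU_I a2
      have h3 : I * -(I * α) = α := by
        have : I ^ 2 = -1 := Complex.I_sq
        linear_combination (-α) * this
      rwa [h3] at h2
  · right
    have h1 : 1 - (1 + α) = -α := by ring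
    rw [h1] at a1
    simpa using rootsU_neg a1

section General

variable {R : Type*} [CommRing R] [IsDomain R]

theorem one_sub_dvd {z : R} {b : ℕ} (hz : z ≠ 1) (h : z ^ b = 1) : (1 - z) ∣ (b : R) := by
  have h1 : ∑ i ∈ Finset.range b, z ^ i = 0 := by
    have h2 := geom_sum_mul z b
    rw [h, sub_self] at h2
    exact (mul_eq_zero.1 h2).resolve_right (sub_ne_zero.2 hz)
  have h3 : (b : R) = ∑ i ∈ Finset.range b, (1 - z ^ i) := by
    rw [Finset.sum_sub_distrib, h1]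
    simp
  rw [h3]
  exact Finset.dvd_sum fun i _ => by simpa using sub_dvd_pow_sub_pow 1 z i

theorem isUnit_one_sub {ω : R} {a b : ℕ} (hab : Nat.Coprime a b) (h : ω ^ (a * b) = 1)
    (ha : ω ^ a ≠ 1) (hb : ω ^ b ≠ 1) : IsUnit (1 - ω) := by
  have h1 : (1 - ω) ∣ (b : R) :=
    (by simpa using sub_dvd_pow_sub_pow 1 ω a : (1 - ω) ∣ 1 - ω ^ a).trans
      (one_sub_dvd ha (by rw [← pow_mul, h]))
  have h2 : (1 - ω) ∣ (a : R) :=
    (by simpa using sub_dvd_pow_sub_pow 1 ω b : (1 - ω) ∣ 1 - ω ^ b).trans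
      (one_sub_dvd hb (by rw [← pow_mul, mul_comm, h]))
  have h3 : IsCoprime (a : ℤ) (b : ℤ) := Nat.isCoprime_iff_coprime.2 hab
  obtain ⟨s, t, hst⟩ := h3
  apply isUnit_of_dvd_one
  have h4 : ((s : R) * (a : R) + (t : R) * (b : R)) = 1 := by
    have := congrArg (Int.cast : ℤ → R) hst
    push_cast at this
    exact this
  have h5 : (1 - ω) ∣ ((s : R) * (a : R) + (t : R) * (b : R)) :=
    dvd_add (h2.mul_left _) (h1.mul_left _)
  rwa [h4] at h5

theorem isUnit_shift {β ζ : R} {p q n : ℕ} (hβ : IsPrimitiveRoot β (p * q)) (hp : p.Prime)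
    (hq : q.Prime) (hpq : p ≠ q) (hn : 0 < n) (hpn : 4 * n < p) (hqn : 4 * n < q)
    (hζ : ζ ^ n = 1) : IsUnit (1 - (ζ * β) ^ 4) := by
  have key : ∀ m : ℕ, (ζ * β) ^ (n * m) = β ^ (n * m) := by
    intro m
    rw [mul_pow, pow_mul ζ, hζ, one_pow, one_mul]
  refine isUnit_one_sub (a := n * p) (b := q) ?_ ?_ ?_ ?_
  · rw [Nat.coprime_comm, Nat.Prime.coprime_iff_not_dvd hq]
    intro h
    rcases (Nat.Prime.dvd_mul hq).1 h with h | h
    · exact absurd (Nat.le_of_dvd hn h) (by omega)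
    · exact hpq ((Nat.prime_dvd_prime_iff_eq hq hp).1 h).symm
  · have : ((ζ * β) ^ 4) ^ (n * p * q) = ((ζ * β) ^ (n * (p * q))) ^ 4 := by
      rw [← pow_mul, ← pow_mul]
      congr 1
      ring
    rw [this, key, ← pow_mul, show n * (p * q) * 4 = (p * q) * (n * 4) by ring, pow_mul,
      hβ.pow_eq_one, one_pow]
  · have : ((ζ * β) ^ 4) ^ (n * p) = (ζ * β) ^ (n * (p * 4)) := by
      rw [← pow_mul]
      congr 1
      ring
    rw [this, key]
    intro h
    have h1 := hβ.dvd_of_pow_eq_one _ h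
    have h2 : p * q ∣ p * (4 * n) := by
      convert h1 using 1
      ring
    have h3 : q ∣ 4 * n := Nat.dvd_of_mul_dvd_mul_left hp.pos h2
    exact absurd (Nat.le_of_dvd (by omega) h3) (by omega)
  · intro h
    have h' : ((ζ * β) ^ 4) ^ (q * n) = 1 := by rw [pow_mul, h, one_pow]
    have : ((ζ * β) ^ 4) ^ (q * n) = (ζ * β) ^ (n * (q * 4)) := by
      rw [← pow_mul]
      congr 1
      ring
    rw [this, key] at h'
    have h1 := hβ.dvd_of_pow_eq_one _ h'
    have h2 : q * p ∣ q * (4 * n) := by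
      rw [mul_comm q p]
      convert h1 using 1
      ring
    have h3 : p ∣ 4 * n := Nat.dvd_of_mul_dvd_mul_left hq.pos h2
    exact absurd (Nat.le_of_dvd (by omega) h3) (by omega)

end General

instance : IsDomain Zab := inferInstance

theorem exists_shift (ζ : Zab) (hζ : (ζ : ℂ) ∈ rootsU) :
    ∃ β : Zab, β ≠ 0 ∧ IsUnit (1 - β ^ 4) ∧ IsUnit (1 - (ζ * β) ^ 4) := by
  obtain ⟨n, hn, h⟩ := hζ
  obtain ⟨p, hp1, hp⟩ := Nat.exists_infinite_primes (4 * n + 1)
  obtain ⟨q, hq1, hq⟩ := Nat.exists_infinite_primes (p + 1)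
  have hpq0 : p * q ≠ 0 := mul_ne_zero hp.ne_zero hq.ne_zero
  have hprim := Complex.isPrimitiveRoot_exp (p * q) hpq0
  set b : ℂ := Complex.exp (2 * Real.pi * I / (p * q : ℕ)) with hb
  have hbU : b ∈ rootsU := ⟨p * q, Nat.pos_of_ne_zero hpq0, hprim.pow_eq_one⟩
  let β : Zab := ⟨b, rootsU_mem_Zab hbU⟩
  have hβ : IsPrimitiveRoot β (p * q) :=
    IsPrimitiveRoot.of_map_of_injective (f := Zab.subtype) hprim Subtype.val_injective
  have hζ' : ζ ^ n = 1 := by
    ext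
    simpa using h
  refine ⟨β, fun h0 => rootsU_ne_zero hbU (congrArg Subtype.val h0), ?_, ?_⟩
  · have := isUnit_shift (ζ := 1) (n := n) hβ hp hq (by omega) hn (by omega) (by omega)
      (one_pow _)
    rwa [one_mul] at this
  · exact isUnit_shift hβ hp hq (by omega) hn (by omega) (by omega) hζ'

/-- The roots of unity are existentially definable in `ℤ^ab`. -/
theorem mem_rootsU_iff (x : Zab) : (x : ℂ) ∈ rootsU ↔
    ∃ β w w' : Zab, β ≠ 0 ∧ (1 - β ^ 4) * w = 1 ∧ x * β ≠ 0 ∧ (1 - (x * β) ^ 4) * w' = 1 := by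
  constructor
  · intro hx
    obtain ⟨β, h0, h1, h2⟩ := exists_shift x hx
    obtain ⟨w, hw⟩ := isUnit_iff_exists_inv.1 h1
    obtain ⟨w', hw'⟩ := isUnit_iff_exists_inv.1 h2
    refine ⟨β, w, w', h0, hw, mul_ne_zero ?_ h0, hw'⟩
    intro h
    exact rootsU_ne_zero hx (congrArg Subtype.val h)
  · rintro ⟨β, w, w', h0, h1, h2, h3⟩
    have a1 : (β : ℂ) ∈ rootsU := by
      refine (eq_zero_or_root β.2 w.2 ?_).resolve_left ?_
      · simpa using congrArg Subtype.val h1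
      · intro h
        exact h0 (Subtype.ext h)
    have a2 : ((x * β : Zab) : ℂ) ∈ rootsU := by
      refine (eq_zero_or_root (x * β).2 w'.2 ?_).resolve_left ?_
      · simpa using congrArg Subtype.val h3
      · intro h
        exact h2 (Subtype.ext h)
    have a3 := rootsU_mul a2 (rootsU_inv a1)
    have a4 : ((x * β : Zab) : ℂ) * (β : ℂ)⁻¹ = x := by
      rw [Subring.coe_mul, mul_assoc, mul_inv_cancel₀ (rootsU_ne_zero a1), mul_one]
    rwa [a4] at a3

end Pool.Agent.Helper63.ZabUnd
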